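import Pool.Agent.Helper377_NS.B
import Pool.Agent.Helper377_G1.Defs

/-!
Chains of prime ideals in noetherian rings and noetherian Hopf algebras: definitions and the
statements of the tasks.
-/

set_option autoImplicit false

open CategoryTheory
open scoped TensorProduct

namespace Pool.Agent.Helper377_NH

open Pool.Agent.Helper202_BG Pool.Agent.Helper377_NS Pool.Agent.Helper377_AG

section
variable {R : Type} [Ring R]

/-- `c` is regular modulo `Q` -/
def RegM (Q : Ideal R) (c : R) : Prop := (∀ x, c * x ∈ Q → x ∈ Q) ∧ ∀ x, x * c ∈ Q → x ∈ Q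

/-- `N / N'` is torsion with respect to the elements which are regular modulo `Q`, for all `Q`
in `S` -/
def Sm (S : Set (Ideal R)) {L : Type} [AddCommGroup L] [Module R L] (N N' : Submodule R L) :
    Prop := ∀ Q ∈ S, ∀ x ∈ N, ∃ c, RegM Q c ∧ c • x ∈ N'

open scoped Classical in
/-- the number of steps which are not torsion among the first `n` steps of `f` -/
noncomputable def cnt (S : Set (Ideal R)) {L : Type} [AddCommGroup L] [Module R L] (n : ℕ)
    (f : ℕ → Submodule R L) : ℕ :=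
  ((Finset.range n).filter fun i => ¬ Sm S (f i) (f (i + 1))).card

/-- the length of a module relative to torsion modules -/
noncomputable def len (S : Set (Ideal R)) (L : Type) [AddCommGroup L] [Module R L] : ℕ∞ :=
  ⨆ (n : ℕ) (f : ℕ → Submodule R L) (_ : Antitone f), (cnt S n f : ℕ∞)

/-- `Q` is a prime ideal, minimal among the prime ideals containing `I` -/
def MinOver (I Q : Ideal R) : Prop :=
  PrimeI Q ∧ I ≤ Q ∧ ∀ Q' : Ideal R, PrimeI Q' → I ≤ Q' → Q' ≤ Q → Q' = Q

/-- `z` is normal modulo `Q` -/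
def NormalM (Q : Ideal R) (z : R) : Prop :=
  (∀ r, ∃ s, z * r - s * z ∈ Q) ∧ ∀ r, ∃ s, r * z - z * s ∈ Q

/-- there is a strictly increasing chain of prime ideals of length `n` from `P` to `M` -/
def Ch (M : Ideal R) : ℕ → Ideal R → Prop
  | 0, P => PrimeI P ∧ P = M
  | n + 1, P => PrimeI P ∧ ∃ P' : Ideal R, P < P' ∧ Ch M n P'

end

/-! ### Statements of tasks -/

/-- Task L0: ideals not contained in a prime ideal contain regular elements modulo it. -/
def TaskL0 : Prop :=
  ∀ (R : Type) [Ring R] [IsNoetherianRing R] (Q A : Ideal R), PrimeI Q → A.IsTwoSided →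
    ¬ A ≤ Q → ∃ c ∈ A, RegM Q c

/-- Task Lm: minimal prime ideals. -/
def TaskLm : Prop :=
  ∀ (R : Type) [Ring R] (I P : Ideal R), PrimeI P → I ≤ P → ∃ P' : Ideal R, MinOver I P' ∧ P' ≤ P

/-- Task L1: additivity. -/
def TaskL1 : Prop :=
  ∀ (R : Type) [Ring R] (S : Set (Ideal R)) (X Y Z : Type) [AddCommGroup X] [Module R X]
    [AddCommGroup Y] [Module R Y] [AddCommGroup Z] [Module R Z] (i : X →ₗ[R] Y) (p : Y →ₗ[R] Z),
    SES i p → len S Y = len S X + len S Z

/-- Task Lz: modules of length zero. -/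
def TaskLz : Prop :=
  ∀ (R : Type) [Ring R] (S : Set (Ideal R)) (L : Type) [AddCommGroup L] [Module R L],
    len S L = 0 ↔ Sm S (⊤ : Submodule R L) ⊥

/-- Task Lt: invariance under semilinear bijections. -/
def TaskLt : Prop :=
  ∀ (R : Type) [Ring R] (S : Set (Ideal R)) (σ : R ≃+* R),
    (∀ Q ∈ S, ∃ Q' ∈ S, ∀ r, r ∈ Q' ↔ σ r ∈ Q) → (∀ Q ∈ S, ∃ Q' ∈ S, ∀ r, σ r ∈ Q' ↔ r ∈ Q) →
    ∀ (L L' : Type) [AddCommGroup L] [Module R L] [AddCommGroup L'] [Module R L'] (e : L ≃+ L'),
      (∀ (r : R) (x : L), e (r • x) = σ r • e x) → len S L = len S L'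

/-- Task L2: finiteness. -/
def TaskL2 : Prop :=
  ∀ (R : Type) [Ring R] [IsNoetherianRing R] (I : Ideal R) (S : Set (Ideal R)),
    (∀ Q ∈ S, MinOver I Q) → ∀ (L : Type) [AddCommGroup L] [Module R L] [Module.Finite R L],
      (∀ a ∈ I, ∀ x : L, a • x = 0) → len S L ≠ ⊤

/-- Task L3: the principal ideal theorem. -/
def TaskL3 : Prop :=
  ∀ (R : Type) [Ring R] [IsNoetherianRing R] (Q P' P : Ideal R), PrimeI Q → PrimeI P' →
    PrimeI P → Q < P' → P' < P → ∀ z ∈ P, z ∉ P' → NormalM Q z →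
      ∃ P'' : Ideal R, PrimeI P'' ∧ z ∈ P'' ∧ Q < P'' ∧ P'' < P

/-- Task L4: prime ideals of finite height. -/
def TaskL4 : Prop :=
  ∀ (R : Type) [Ring R] [IsNoetherianRing R] (M : Ideal R), PrimeI M →
    (∀ Q : Ideal R, PrimeI Q → Q < M → ∃ z ∈ M, z ∉ Q ∧ NormalM Q z) →
      ∃ d : ℕ, ∀ (n : ℕ) (P : Ideal R), Ch M n P → n ≤ d

/-- Task L5a: the annihilator of a module with an injective endomorphism. -/
def TaskL5a : Prop :=
  ∀ (R : Type) [Ring R] [IsNoetherianRing R] (N N₁ : Type) [AddCommGroup N] [Module R N]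
    [AddCommGroup N₁] [Module R N₁] [Module.Finite R N] (θ : N →ₗ[R] N) (π : N →ₗ[R] N₁),
    Function.Injective θ → Function.Surjective π → (∀ x, π (θ x) = 0) →
    ∀ (s : ℕ) (x : Fin s → N₁), (∀ a : R, (∀ i, a • x i = 0) → ∀ y : N₁, a • y = 0) →
      ∀ P' : Ideal R, MinOver (Module.annihilator R N) P' →
        ¬ Module.annihilator R N₁ ≤ P'

/-- Task L5: comparison of chains of prime ideals in a noetherian Hopf algebra. -/
def TaskL5 : Prop :=
  ∀ (k H : Type) [Field k] [Ring H] [HopfAlgebra k H] [IsNoetherianRing H] (M : Ideal H),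
    PrimeI M → Module.Finite k (H ⧸ M) → ∀ (n : ℕ) (P : Ideal H), Ch M n P →
      ∃ P' : Ideal H, Ch (RingHom.ker (eps k H)) n P'

end Pool.Agent.Helper377_NH
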