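import Pool.Agent.Helper377_NH.Defs

/-!
Chains of prime ideals in normally separated noetherian Hopf algebras are bounded.
-/

set_option autoImplicit false

open CategoryTheory
open scoped TensorProduct

namespace Pool.Agent.Helper377_NH

open Pool.Agent.Helper202_BG Pool.Agent.Helper377_NS Pool.Agent.Helper377_AG

theorem ch_of_fin {R : Type} [Ring R] (n : ℕ) : ∀ c : Fin (n + 1) → Ideal R, StrictMono c →
    (∀ i, PrimeI (c i)) → Ch (c (Fin.last n)) n (c 0) := by
  induction n with
  | zero =>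
    intro c _ hp
    exact ⟨hp 0, rfl⟩
  | succ n ih =>
    intro c hc hp
    refine ⟨hp 0, c 1, hc (by simp), ?_⟩
    exact ih (fun i => c i.succ) (fun i j hij => hc (Fin.succ_lt_succ_iff.2 hij)) fun i => hp _

theorem ker_eps_prime (k H : Type) [Field k] [Ring H] [HopfAlgebra k H] :
    PrimeI (RingHom.ker (eps k H)) := by
  have h1 : eps k H 1 = 1 := map_one _
  refine ⟨inferInstance, ?_, ?_⟩
  · intro h
    have : (1 : H) ∈ RingHom.ker (eps k H) := by rw [h]; trivial
    rw [RingHom.mem_ker, h1] at this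
    exact one_ne_zero this
  · intro a b h
    have h2 := h 1
    rw [mul_one, RingHom.mem_ker, map_mul, mul_eq_zero] at h2
    exact h2

theorem ker_eps_fin (k H : Type) [Field k] [Ring H] [HopfAlgebra k H] :
    Module.Finite k (H ⧸ RingHom.ker (eps k H)) := by
  refine finite_quot (k := k) _ (W := k) (Bialgebra.counitAlgHom k H).toLinearMap ?_
  intro x hx
  exact hx

theorem bddChains_of (h0 : TaskL0) (h4 : TaskL4) (h5 : TaskL5) (k H : Type) [Field k] [Ring H]
    [HopfAlgebra k H] [IsNoetherianRing H] (hN : NormSep k H) : BddChains k H := by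
  have hM := ker_eps_prime k H
  have hMt : (RingHom.ker (eps k H)).IsTwoSided := hM.1
  obtain ⟨d, hd⟩ := h4 H (RingHom.ker (eps k H)) hM (by
    intro Q hQ hQM
    have hinf : ¬ Module.Finite k (H ⧸ Q) := by
      intro hfin
      obtain ⟨c, hcM, hc⟩ := h0 H Q (RingHom.ker (eps k H)) hQ hMt (not_le_of_gt hQM)
      let g : (H ⧸ Q) →ₗ[k] (H ⧸ Q) :=
        (Q.liftQ ((Submodule.mkQ Q).comp (LinearMap.toSpanSingleton H H c)) (by
          intro q hq
          rw [LinearMap.mem_ker]
          exact (Submodule.Quotient.mk_eq_zero Q).mpr (hQ.1.mul_mem_of_left c hq))).restrictScalars k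
      have hg : Function.Injective g := by
        rw [← LinearMap.ker_eq_bot, LinearMap.ker_eq_bot']
        intro x hx
        obtain ⟨x, rfl⟩ := Submodule.mkQ_surjective Q x
        exact (Submodule.Quotient.mk_eq_zero Q).mpr (hc.2 x ((Submodule.Quotient.mk_eq_zero Q).mp hx))
      obtain ⟨x, hx⟩ := (LinearMap.injective_iff_surjective.1 hg) (Submodule.Quotient.mk 1)
      obtain ⟨x, rfl⟩ := Submodule.mkQ_surjective Q x
      have h1 : x * c - 1 ∈ Q := (Submodule.Quotient.eq Q).1 hx
      apply hM.2.1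
      rw [Ideal.eq_top_iff_one]
      have h2 : x * c ∈ RingHom.ker (eps k H) := Ideal.mul_mem_left _ x hcM
      have h3 := (RingHom.ker (eps k H)).sub_mem h2 (hQM.le h1)
      have h4 : x * c - (x * c - 1) = 1 := by abel
      rwa [h4] at h3
    obtain ⟨z, hz, hzQ, hz1, hz2⟩ := hN Q (RingHom.ker (eps k H)) hQ hMt hQM.le hinf
      (ker_eps_fin k H)
    exact ⟨z, hz, hzQ, hz1, hz2⟩)
  refine ⟨d, ?_⟩
  intro n c hc hp hfin
  obtain ⟨P', hP'⟩ := h5 k H (c (Fin.last n)) (hp _) hfin n (c 0) (ch_of_fin n c hc hp)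
  exact hd n P' hP'

end Pool.Agent.Helper377_NH
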