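import Pool.Agent.Helper377_NH.Task4

/-!
Normal separation of prime ideals implies normal separation of ideals of finite codimension.
-/

set_option autoImplicit false

namespace Pool.Agent.Helper377_NH

open Pool.Agent.Helper202_BG Pool.Agent.Helper377_NS Pool.Agent.Helper377_AG NH4

theorem gen_mul {R : Type} [Ring R] {J : Ideal R} (hJ : J.IsTwoSided) {a b : R}
    (h : ∀ r, a * r * b ∈ J) {x y : R} (hx : x ∈ gen J a) (hy : y ∈ gen J b) : x * y ∈ J := by
  let K : Ideal R :=
    { carrier := {x | ∀ r, x * r * b ∈ J}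
      add_mem' := fun {u v} hu hv r => by
        rw [add_mul, add_mul]
        exact J.add_mem (hu r) (hv r)
      zero_mem' := fun r => by rw [zero_mul, zero_mul]; exact J.zero_mem
      smul_mem' := fun c u hu r => by
        rw [smul_eq_mul, mul_assoc, mul_assoc, ← mul_assoc u]
        exact J.mul_mem_left c (hu r) }
  have hK : K.IsTwoSided := ⟨fun {u} c hu r => by
    have := hu (c * r)
    rwa [← mul_assoc] at this⟩
  have h1 : gen J a ≤ K := gen_le hK (fun u hu r =>
    hJ.mul_mem_of_left b (hJ.mul_mem_of_left r hu)) h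
  let L : Ideal R :=
    { carrier := {y | ∀ r, x * r * y ∈ J}
      add_mem' := fun {u v} hu hv r => by
        rw [mul_add]
        exact J.add_mem (hu r) (hv r)
      zero_mem' := fun r => by rw [mul_zero]; exact J.zero_mem
      smul_mem' := fun c u hu r => by
        rw [smul_eq_mul, ← mul_assoc, mul_assoc x]
        exact hu (r * c) }
  have hL : L.IsTwoSided := ⟨fun {u} c hu r => by
    rw [← mul_assoc]
    exact hJ.mul_mem_of_left c (hu r)⟩
  have h2 : gen J b ≤ L := gen_le hL (fun u hu r => J.mul_mem_left _ hu) (fun r => h1 hx r)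
  have h3 := h2 hy 1
  rwa [mul_one] at h3

theorem normal_mul {R : Type} [Ring R] {P : Ideal R} (hP : P.IsTwoSided) {x y : R}
    (hx : NormalM P x) (hy : NormalM P y) : NormalM P (x * y) := by
  refine ⟨fun r => ?_, fun r => ?_⟩
  · obtain ⟨s, hs⟩ := hy.1 r
    obtain ⟨t, ht⟩ := hx.1 s
    refine ⟨t, ?_⟩
    have h1 : x * y * r - t * (x * y) = x * (y * r - s * y) + (x * s - t * x) * y := by
      noncomm_ring
    rw [h1]
    exact P.add_mem (P.mul_mem_left _ hs) (hP.mul_mem_of_left _ ht)
  · obtain ⟨s, hs⟩ := hx.2 r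
    obtain ⟨t, ht⟩ := hy.2 s
    refine ⟨t, ?_⟩
    have h1 : r * (x * y) - x * y * t = (r * x - x * s) * y + x * (s * y - y * t) := by
      noncomm_ring
    rw [h1]
    exact P.add_mem (hP.mul_mem_of_left _ hs) (P.mul_mem_left _ ht)

theorem normal_not_mem {R : Type} [Ring R] {P : Ideal R} (hP : PrimeI P) {x y : R}
    (hx : NormalM P x) (hx0 : x ∉ P) (hy0 : y ∉ P) : x * y ∉ P := by
  intro h
  rcases hP.2.2 x y (fun r => by
    obtain ⟨s, hs⟩ := hx.1 r
    have h1 : x * r * y = (x * r - s * x) * y + s * (x * y) := by noncomm_ring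
    rw [h1]
    exact P.add_mem (hP.1.mul_mem_of_left _ hs) (P.mul_mem_left _ h)) with h1 | h1
  · exact hx0 h1
  · exact hy0 h1

/-- Normal separation at the prime ideals of finite codimension suffices. -/
theorem normSep_of {k R : Type} [Field k] [Ring R] [Algebra k R] [IsNoetherianRing R]
    (h : ∀ P M : Ideal R, PrimeI P → PrimeI M → P < M → Module.Finite k (R ⧸ M) →
      ∃ z ∈ M, z ∉ P ∧ NormalM P z) : NormSep k R := by
  intro P J hP hJ hPJ hinf hfin
  have key : ∀ J : Ideal R, J.IsTwoSided → P ≤ J → Module.Finite k (R ⧸ J) →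
      ∃ z ∈ J, z ∉ P ∧ NormalM P z := by
    intro J
    induction J using WellFoundedGT.induction with
    | ind J ih =>
      intro hJ hPJ hfin
      by_cases htop : J = ⊤
      · refine ⟨1, by rw [htop]; trivial, fun h1 => hP.2.1 ((Ideal.eq_top_iff_one P).2 h1), ?_⟩
        exact ⟨fun r => ⟨r, by simp⟩, fun r => ⟨r, by simp⟩⟩
      by_cases hprime : ∀ a b : R, (∀ r, a * r * b ∈ J) → a ∈ J ∨ b ∈ J
      · refine h P J hP ⟨hJ, htop, hprime⟩ (lt_of_le_of_ne hPJ ?_) hfin
        rintro rfl
        exact hinf hfin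
      · push Not at hprime
        obtain ⟨a, b, hab, ha, hb⟩ := hprime
        have hfa : ∀ a, Module.Finite k (R ⧸ gen J a) := fun a =>
          Module.Finite.of_surjective ((Submodule.factor (le_gen J a)).restrictScalars k)
            (Submodule.factor_surjective (le_gen J a))
        obtain ⟨z₁, h1, h2, h3⟩ := ih (gen J a) (lt_gen ha) (gen_ts J a) (hPJ.trans (le_gen J a))
          (hfa a)
        obtain ⟨z₂, g1, g2, g3⟩ := ih (gen J b) (lt_gen hb) (gen_ts J b) (hPJ.trans (le_gen J b))
          (hfa b)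
        exact ⟨z₁ * z₂, gen_mul hJ hab h1 g1, normal_not_mem hP h3 h2 g2, normal_mul hP.1 h3 g3⟩
  obtain ⟨z, h1, h2, h3, h4⟩ := key J hJ hPJ hfin
  exact ⟨z, h1, h2, h3, h4⟩

end Pool.Agent.Helper377_NH
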