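import Pool.Agent.Helper377_NH.Defs
import Pool.Agent.Helper377_G1.TaskGo

/-!
JOB NH-0 (MP_112773_al, helper377).  Two short tasks: TaskL0 and TaskLm.
-/

set_option autoImplicit false

namespace Pool.Agent.Helper377_NH

open Pool.Agent.Helper202_BG Pool.Agent.Helper377_NS Pool.Agent.Helper377_AG Pool.Agent.Helper377_G1

namespace J89

theorem primeR_quo {A : Type} [Ring A] (P : Ideal A) [P.IsTwoSided] (h : PrimeI P) :
    PrimeR (A ⧸ P) := by
  obtain ⟨_, hne, h⟩ := h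
  refine ⟨Ideal.Quotient.nontrivial_iff.mpr hne, fun a b hab => ?_⟩
  obtain ⟨a, rfl⟩ := Ideal.Quotient.mk_surjective a
  obtain ⟨b, rfl⟩ := Ideal.Quotient.mk_surjective b
  have h2 := h a b (fun r => ?_)
  · rcases h2 with h2 | h2
    · exact Or.inl (Ideal.Quotient.eq_zero_iff_mem.mpr h2)
    · exact Or.inr (Ideal.Quotient.eq_zero_iff_mem.mpr h2)
  · have := hab (Ideal.Quotient.mk P r)
    rw [← map_mul, ← map_mul] at this
    exact Ideal.Quotient.eq_zero_iff_mem.mp this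

/-- the image of a two-sided ideal in the quotient, as a left ideal -/
def img {R : Type} [Ring R] (Q A : Ideal R) [Q.IsTwoSided] : Ideal (R ⧸ Q) where
  carrier := {x | ∃ a ∈ A, Ideal.Quotient.mk Q a = x}
  zero_mem' := ⟨0, A.zero_mem, map_zero _⟩
  add_mem' := by
    rintro x y ⟨a, ha, rfl⟩ ⟨b, hb, rfl⟩
    exact ⟨a + b, A.add_mem ha hb, map_add _ _ _⟩
  smul_mem' := by
    rintro c x ⟨a, ha, rfl⟩
    obtain ⟨c, rfl⟩ := Ideal.Quotient.mk_surjective c
    exact ⟨c * a, A.mul_mem_left c ha, map_mul _ _ _⟩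

theorem mem_img {R : Type} [Ring R] (Q A : Ideal R) [Q.IsTwoSided] (x : R ⧸ Q) :
    x ∈ img Q A ↔ ∃ a ∈ A, Ideal.Quotient.mk Q a = x := Iff.rfl

/-- intersection of a chain of prime ideals -/
theorem primeI_sInf {R : Type} [Ring R] (c : Set (Ideal R)) (hc : IsChain (· ≤ ·) c)
    (hne : c.Nonempty) (hp : ∀ Q ∈ c, PrimeI Q) : PrimeI (sInf c) := by
  obtain ⟨Q0, hQ0⟩ := hne
  refine ⟨⟨fun {a} b ha => ?_⟩, ?_, ?_⟩
  · rw [Submodule.mem_sInf] at ha ⊢
    intro Q hQ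
    have := (hp Q hQ).1
    exact Ideal.mul_mem_right _ _ (ha Q hQ)
  · intro htop
    apply (hp Q0 hQ0).2.1
    rw [eq_top_iff, ← htop]
    exact sInf_le hQ0
  · intro a b hab
    by_contra hcon
    rw [not_or, Submodule.mem_sInf, Submodule.mem_sInf] at hcon
    obtain ⟨ha, hb⟩ := hcon
    push Not at ha hb
    obtain ⟨Q1, hQ1, ha⟩ := ha
    obtain ⟨Q2, hQ2, hb⟩ := hb
    rcases hc.total hQ1 hQ2 with h | h
    · rcases (hp Q1 hQ1).2.2 a b (fun r => (Submodule.mem_sInf.1 (hab r)) Q1 hQ1) with h3 | h3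
      · exact ha h3
      · exact hb (h h3)
    · rcases (hp Q2 hQ2).2.2 a b (fun r => (Submodule.mem_sInf.1 (hab r)) Q2 hQ2) with h3 | h3
      · exact ha (h h3)
      · exact hb h3

end J89

theorem taskL0 : TaskL0 := by
  intro R _ _ Q A hQ hA hAQ
  have hQ1 := hQ.1
  have hR := J89.primeR_quo Q hQ
  have hnoeth : IsNoetherianRing (R ⧸ Q) :=
    isNoetherianRing_of_surjective R (R ⧸ Q) (Ideal.Quotient.mk Q) Ideal.Quotient.mk_surjective
  have hsemi : SemiprimeR (R ⧸ Q) := fun a ha => (hR.2 a a ha).elim id id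
  obtain ⟨a, haA, haQ⟩ := Set.not_subset.1 hAQ
  have hess : EssL (J89.img Q A) := by
    intro J hJ hcon
    obtain ⟨j, hj, hj0⟩ := (Submodule.ne_bot_iff J).1 hJ
    have ha0 : Ideal.Quotient.mk Q a ≠ 0 := fun h => haQ (Ideal.Quotient.eq_zero_iff_mem.1 h)
    have h1 : ¬ ∀ r, Ideal.Quotient.mk Q a * r * j = 0 := fun h => by
      rcases hR.2 _ _ h with h | h
      · exact ha0 h
      · exact hj0 h
    push Not at h1
    obtain ⟨r, hr⟩ := h1
    apply hr
    have h2 : Ideal.Quotient.mk Q a * r * j ∈ J89.img Q A ⊓ J := by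
      refine ⟨?_, J.mul_mem_left _ hj⟩
      obtain ⟨r, rfl⟩ := Ideal.Quotient.mk_surjective r
      obtain ⟨j, rfl⟩ := Ideal.Quotient.mk_surjective j
      refine ⟨a * r * j, ?_, by rw [map_mul, map_mul]⟩
      exact Ideal.mul_mem_right _ _ (Ideal.mul_mem_right _ _ haA)
    rw [hcon] at h2
    exact (Submodule.mem_bot _).1 h2
  obtain ⟨c, hc, hreg⟩ := taskGo.1 (R ⧸ Q) hsemi _ hess
  obtain ⟨c, hcA, rfl⟩ := hc
  refine ⟨c, hcA, fun x hx => ?_, fun x hx => ?_⟩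
  · have := hreg.1 (Ideal.Quotient.mk Q x) (by
      rw [← map_mul]
      exact Ideal.Quotient.eq_zero_iff_mem.2 hx)
    exact Ideal.Quotient.eq_zero_iff_mem.1 this
  · have := hreg.2 (Ideal.Quotient.mk Q x) (by
      rw [← map_mul]
      exact Ideal.Quotient.eq_zero_iff_mem.2 hx)
    exact Ideal.Quotient.eq_zero_iff_mem.1 this

theorem taskLm : TaskLm := by
  intro R _ I P hP hIP
  obtain ⟨P', hP'P, hmin⟩ := zorn_le_nonempty₀ (α := (Ideal R)ᵒᵈ)
    {Q | PrimeI (OrderDual.ofDual Q) ∧ I ≤ OrderDual.ofDual Q} (fun c hc hchain y hy => by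
      refine ⟨OrderDual.toDual (sInf (OrderDual.ofDual '' c)), ⟨?_, ?_⟩, ?_⟩
      · refine J89.primeI_sInf _ ?_ ⟨_, y, hy, rfl⟩ ?_
        · rintro _ ⟨a, ha, rfl⟩ _ ⟨b, hb, rfl⟩ hab
          have := hchain ha hb (fun h => hab (by rw [h]))
          exact this.symm
        · rintro _ ⟨a, ha, rfl⟩
          exact (hc ha).1
      · refine le_sInf ?_
        rintro _ ⟨a, ha, rfl⟩
        exact (hc ha).2
      · intro z hz
        show sInf (OrderDual.ofDual '' c) ≤ OrderDual.ofDual z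
        exact sInf_le ⟨z, hz, rfl⟩) (OrderDual.toDual P) ⟨hP, hIP⟩
  refine ⟨OrderDual.ofDual P', ⟨hmin.1.1, hmin.1.2, fun Q hQ hIQ hle => ?_⟩, hP'P⟩
  exact le_antisymm hle (hmin.2 (y := OrderDual.toDual Q) ⟨hQ, hIQ⟩ hle)

end Pool.Agent.Helper377_NH
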