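import Pool.Agent.Helper377_NH.Defs

/-!
JOB NH-1 (MP_112773_al, helper377).  The relative length `len S`: additivity (TaskL1), modules of length zero (TaskLz), invariance (TaskLt).
-/

set_option autoImplicit false

namespace Pool.Agent.Helper377_NH

open Pool.Agent.Helper202_BG Pool.Agent.Helper377_NS Pool.Agent.Helper377_AG

namespace NH1

section
variable {R : Type} [Ring R]

theorem regM_mul {Q : Ideal R} {c c' : R} (h : RegM Q c) (h' : RegM Q c') : RegM Q (c * c') := by
  constructor
  · intro x hx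
    rw [mul_assoc] at hx
    exact h'.1 x (h.1 _ hx)
  · intro x hx
    rw [← mul_assoc] at hx
    exact h.2 x (h'.2 _ hx)

theorem cnt_le_len (S : Set (Ideal R)) {L : Type} [AddCommGroup L] [Module R L] (n : ℕ)
    {f : ℕ → Submodule R L} (hf : Antitone f) : (cnt S n f : ℕ∞) ≤ len S L :=
  le_iSup_of_le n (le_iSup_of_le f (le_iSup_of_le hf le_rfl))

theorem len_le (S : Set (Ideal R)) {L : Type} [AddCommGroup L] [Module R L] {b : ℕ∞}
    (h : ∀ (n : ℕ) (f : ℕ → Submodule R L), Antitone f → (cnt S n f : ℕ∞) ≤ b) :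
    len S L ≤ b :=
  iSup_le fun n => iSup_le fun f => iSup_le fun hf => h n f hf

theorem len_eq (S : Set (Ideal R)) (L : Type) [AddCommGroup L] [Module R L] :
    len S L = ⨆ x : ℕ × {f : ℕ → Submodule R L // Antitone f}, (cnt S x.1 x.2.1 : ℕ∞) := by
  apply le_antisymm
  · exact len_le S fun n f hf => le_iSup
      (fun x : ℕ × {f : ℕ → Submodule R L // Antitone f} => (cnt S x.1 x.2.1 : ℕ∞)) (n, ⟨f, hf⟩)
  · exact iSup_le fun x => cnt_le_len S x.1 x.2.2

instance (L : Type) [AddCommGroup L] [Module R L] :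
    Nonempty {f : ℕ → Submodule R L // Antitone f} := ⟨⟨fun _ => ⊥, fun _ _ _ => le_rfl⟩⟩

/-- upper bound for the sum of two lengths -/
theorem len_add_le (S : Set (Ideal R)) {X Z : Type} [AddCommGroup X] [Module R X]
    [AddCommGroup Z] [Module R Z] {b : ℕ∞}
    (h : ∀ (n : ℕ) (f : ℕ → Submodule R X) (m : ℕ) (g : ℕ → Submodule R Z), Antitone f →
      Antitone g → (cnt S n f : ℕ∞) + (cnt S m g : ℕ∞) ≤ b) :
    len S X + len S Z ≤ b := by
  rw [len_eq, len_eq]
  exact ENat.iSup_add_iSup_le fun x y => h x.1 x.2.1 y.1 y.2.1 x.2.2 y.2.2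

theorem len_Y_le (S : Set (Ideal R)) {X Y Z : Type} [AddCommGroup X] [Module R X]
    [AddCommGroup Y] [Module R Y] [AddCommGroup Z] [Module R Z] (i : X →ₗ[R] Y) (p : Y →ₗ[R] Z)
    (hs : SES i p) : len S Y ≤ len S X + len S Z := by
  classical
  refine len_le S fun n f hf => ?_
  set g : ℕ → Submodule R X := fun j => (f j).comap i with hg
  set h : ℕ → Submodule R Z := fun j => (f j).map p with hh
  have hga : Antitone g := fun a b hab => Submodule.comap_mono (hf hab)
  have hha : Antitone h := fun a b hab => Submodule.map_mono (hf hab)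
  have key : ∀ j, Sm S (g j) (g (j + 1)) → Sm S (h j) (h (j + 1)) → Sm S (f j) (f (j + 1)) := by
    intro j h1 h2 Q hQ x hx
    obtain ⟨c, hc, hcx⟩ := h2 Q hQ (p x) (Submodule.mem_map_of_mem hx)
    obtain ⟨y, hy, hyx⟩ := Submodule.mem_map.1 hcx
    have h3 : p (c • x - y) = 0 := by
      rw [map_sub, map_smul, hyx, sub_self]
    obtain ⟨x', hx'⟩ := (hs.exact _).1 h3
    have h4 : x' ∈ g j := by
      rw [hg, Submodule.mem_comap, hx']
      exact Submodule.sub_mem _ (Submodule.smul_mem _ _ hx) (hf (Nat.le_succ j) hy)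
    obtain ⟨c', hc', hcx'⟩ := h1 Q hQ x' h4
    refine ⟨c' * c, regM_mul hc' hc, ?_⟩
    rw [hg, Submodule.mem_comap, map_smul, hx'] at hcx'
    have h5 : (c' * c) • x = c' • (c • x - y) + c' • y := by
      rw [smul_sub, mul_smul, sub_add_cancel]
    rw [h5]
    exact Submodule.add_mem _ hcx' (Submodule.smul_mem _ _ hy)
  have hcnt : cnt S n f ≤ cnt S n g + cnt S n h := by
    unfold cnt
    refine le_trans (Finset.card_le_card ?_) (Finset.card_union_le _ _)
    intro j hj
    rw [Finset.mem_filter] at hj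
    rw [Finset.mem_union, Finset.mem_filter, Finset.mem_filter]
    by_cases h1 : Sm S (g j) (g (j + 1))
    · right
      exact ⟨hj.1, fun h2 => hj.2 (key j h1 h2)⟩
    · left
      exact ⟨hj.1, h1⟩
  calc (cnt S n f : ℕ∞) ≤ ((cnt S n g + cnt S n h : ℕ) : ℕ∞) := by exact_mod_cast hcnt
    _ = (cnt S n g : ℕ∞) + (cnt S n h : ℕ∞) := by push_cast; rfl
    _ ≤ len S X + len S Z := add_le_add (cnt_le_len S n hga) (cnt_le_len S n hha)

theorem le_len_Y (S : Set (Ideal R)) {X Y Z : Type} [AddCommGroup X] [Module R X]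
    [AddCommGroup Y] [Module R Y] [AddCommGroup Z] [Module R Z] (i : X →ₗ[R] Y) (p : Y →ₗ[R] Z)
    (hs : SES i p) : len S X + len S Z ≤ len S Y := by
  classical
  refine len_add_le S fun n f m h hf hh => ?_
  set F : ℕ → Submodule R Y := fun j => if j ≤ m then (h j).comap p else (f (j - (m + 1))).map i
    with hF
  have hF1 : ∀ j, j ≤ m → F j = (h j).comap p := fun j hj => by
    rw [hF]
    simp only
    rw [if_pos hj]
  have hF2 : ∀ j, F (m + 1 + j) = (f j).map i := fun j => by
    rw [hF]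
    simp only
    rw [if_neg (by omega), Nat.add_sub_cancel_left]
  have hFa : Antitone F := by
    refine antitone_nat_of_succ_le fun j => ?_
    rcases Nat.lt_trichotomy j m with hj | hj | hj
    · rw [hF1 j (by omega), hF1 (j + 1) (by omega)]
      exact Submodule.comap_mono (hh (Nat.le_succ j))
    · subst hj
      have h1 := hF2 0
      rw [Nat.add_zero] at h1
      rw [h1, hF1 j le_rfl]
      rintro _ ⟨x, _, rfl⟩
      rw [Submodule.mem_comap, (hs.exact (i x)).2 ⟨x, rfl⟩]
      exact Submodule.zero_mem _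
    · obtain ⟨t, rfl⟩ := Nat.exists_eq_add_of_le (show m + 1 ≤ j by omega)
      rw [hF2 t, Nat.add_assoc (m + 1) t 1, hF2 (t + 1)]
      exact Submodule.map_mono (hf (Nat.le_succ t))
  have k1 : ∀ j, j < m → Sm S (F j) (F (j + 1)) → Sm S (h j) (h (j + 1)) := by
    intro j hj h1 Q hQ z hz
    rw [hF1 j (by omega), hF1 (j + 1) (by omega)] at h1
    obtain ⟨y, rfl⟩ := hs.surj z
    obtain ⟨c, hc, hcy⟩ := h1 Q hQ y hz
    refine ⟨c, hc, ?_⟩
    rw [Submodule.mem_comap, map_smul] at hcy
    exact hcy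
  have k2 : ∀ j, Sm S (F (m + 1 + j)) (F (m + 1 + j + 1)) → Sm S (f j) (f (j + 1)) := by
    intro j h1 Q hQ x hx
    rw [hF2 j, Nat.add_assoc (m + 1) j 1, hF2 (j + 1)] at h1
    obtain ⟨c, hc, hcy⟩ := h1 Q hQ (i x) (Submodule.mem_map_of_mem hx)
    refine ⟨c, hc, ?_⟩
    rw [← map_smul] at hcy
    obtain ⟨x', hx', hxx⟩ := Submodule.mem_map.1 hcy
    rwa [← hs.inj hxx]
  have hcnt : cnt S n f + cnt S m h ≤ cnt S (m + 1 + n) F := by
    unfold cnt
    have hinj : Function.Injective (fun j => m + 1 + j) := fun a b hab => by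
      simp only at hab
      omega
    have hdisj : Disjoint (((Finset.range n).filter fun j => ¬ Sm S (f j) (f (j + 1))).map
        ⟨fun j => m + 1 + j, hinj⟩)
        ((Finset.range m).filter fun j => ¬ Sm S (h j) (h (j + 1))) := by
      rw [Finset.disjoint_left]
      intro a ha hb
      rw [Finset.mem_map] at ha
      obtain ⟨b, _, rfl⟩ := ha
      rw [Finset.mem_filter, Finset.mem_range] at hb
      simp only [Function.Embedding.coeFn_mk] at hb
      omega
    rw [← Finset.card_map ⟨fun j => m + 1 + j, hinj⟩, ← Finset.card_union_of_disjoint hdisj]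
    apply Finset.card_le_card
    intro a ha
    rw [Finset.mem_union] at ha
    rw [Finset.mem_filter, Finset.mem_range]
    rcases ha with ha | ha
    · rw [Finset.mem_map] at ha
      obtain ⟨b, hb, rfl⟩ := ha
      rw [Finset.mem_filter, Finset.mem_range] at hb
      simp only [Function.Embedding.coeFn_mk]
      exact ⟨by omega, fun h1 => hb.2 (k2 b h1)⟩
    · rw [Finset.mem_filter, Finset.mem_range] at ha
      exact ⟨by omega, fun h1 => ha.2 (k1 a ha.1 h1)⟩
  calc (cnt S n f : ℕ∞) + (cnt S m h : ℕ∞) = ((cnt S n f + cnt S m h : ℕ) : ℕ∞) := by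
        push_cast; rfl
    _ ≤ (cnt S (m + 1 + n) F : ℕ∞) := by exact_mod_cast hcnt
    _ ≤ len S Y := cnt_le_len S _ hFa

/-- one inequality of the invariance -/
theorem len_semi (S : Set (Ideal R)) (σ : R ≃+* R)
    (h1 : ∀ Q ∈ S, ∃ Q' ∈ S, ∀ r, r ∈ Q' ↔ σ r ∈ Q)
    (L L' : Type) [AddCommGroup L] [Module R L] [AddCommGroup L'] [Module R L'] (e : L ≃+ L')
    (he : ∀ (r : R) (x : L), e (r • x) = σ r • e x) : len S L' ≤ len S L := by
  classical
  refine len_le S fun n f' hf' => ?_
  set f : ℕ → Submodule R L := fun j =>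
    { carrier := {x | e x ∈ f' j}
      add_mem' := by
        intro a b ha hb
        rw [Set.mem_ofPred_eq] at *
        rw [map_add]
        exact Submodule.add_mem _ ha hb
      zero_mem' := by
        rw [Set.mem_ofPred_eq, map_zero]
        exact Submodule.zero_mem _
      smul_mem' := by
        intro r x hx
        rw [Set.mem_ofPred_eq] at *
        rw [he]
        exact Submodule.smul_mem _ _ hx } with hf
  have hmem : ∀ j x, x ∈ f j ↔ e x ∈ f' j := fun j x => Iff.rfl
  have hfa : Antitone f := fun a b hab x hx => (hmem a x).2 (hf' hab ((hmem b x).1 hx))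
  have key : ∀ j, Sm S (f j) (f (j + 1)) → Sm S (f' j) (f' (j + 1)) := by
    intro j h2 Q hQ y hy
    obtain ⟨Q', hQ', hr⟩ := h1 Q hQ
    obtain ⟨c, hc, hcx⟩ := h2 Q' hQ' (e.symm y) ((hmem j _).2 (by
      rw [AddEquiv.apply_symm_apply]; exact hy))
    rw [hmem, he, AddEquiv.apply_symm_apply] at hcx
    refine ⟨σ c, ⟨?_, ?_⟩, hcx⟩
    · intro x hx
      have h3 : σ (c * σ.symm x) ∈ Q := by
        rw [map_mul, RingEquiv.apply_symm_apply]; exact hx
      have h4 := (hr _).1 (hc.1 _ ((hr _).2 h3))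
      rwa [RingEquiv.apply_symm_apply] at h4
    · intro x hx
      have h3 : σ (σ.symm x * c) ∈ Q := by
        rw [map_mul, RingEquiv.apply_symm_apply]; exact hx
      have h4 := (hr _).1 (hc.2 _ ((hr _).2 h3))
      rwa [RingEquiv.apply_symm_apply] at h4
  have hcnt : cnt S n f' ≤ cnt S n f := by
    unfold cnt
    apply Finset.card_le_card
    intro j hj
    rw [Finset.mem_filter] at *
    exact ⟨hj.1, fun h2 => hj.2 (key j h2)⟩
  exact le_trans (by exact_mod_cast hcnt) (cnt_le_len S n hfa)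

end

end NH1

theorem taskL1 : TaskL1 := by
  intro R _ S X Y Z _ _ _ _ _ _ i p hs
  exact le_antisymm (NH1.len_Y_le S i p hs) (NH1.le_len_Y S i p hs)

theorem taskLz : TaskLz := by
  intro R _ S L _ _
  classical
  constructor
  · intro h
    by_contra hn
    set f : ℕ → Submodule R L := fun j => if j = 0 then ⊤ else ⊥ with hf
    have hfa : Antitone f := by
      refine antitone_nat_of_succ_le fun j => ?_
      rw [hf]
      simp only
      rw [if_neg (Nat.succ_ne_zero j)]
      exact bot_le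
    have h1 := NH1.cnt_le_len S 1 hfa
    rw [h] at h1
    have h2 : cnt S 1 f = 0 := by
      have h3 : (cnt S 1 f : ℕ∞) = 0 := le_antisymm h1 zero_le
      exact_mod_cast h3
    unfold cnt at h2
    rw [Finset.card_eq_zero, Finset.filter_eq_empty_iff] at h2
    have h4 := h2 (Finset.mem_range.2 Nat.one_pos)
    apply h4
    intro h5
    apply hn
    rw [hf] at h5
    simpa using h5
  · intro h
    refine le_antisymm (NH1.len_le S fun n f _ => ?_) zero_le
    have h1 : cnt S n f = 0 := by
      unfold cnt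
      rw [Finset.card_eq_zero, Finset.filter_eq_empty_iff]
      intro j _ h2
      apply h2
      intro Q hQ x _
      obtain ⟨c, hc, hcx⟩ := h Q hQ x Submodule.mem_top
      refine ⟨c, hc, ?_⟩
      rw [(Submodule.mem_bot R).1 hcx]
      exact Submodule.zero_mem _
    rw [h1]
    exact le_rfl

theorem taskLt : TaskLt := by
  intro R _ S σ h1 h2 L L' _ _ _ _ e he
  refine le_antisymm ?_ (NH1.len_semi S σ h1 L L' e he)
  refine NH1.len_semi S σ.symm ?_ L' L e.symm ?_
  · intro Q hQ
    obtain ⟨Q', hQ', hr⟩ := h2 Q hQ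
    refine ⟨Q', hQ', fun r => ?_⟩
    have h3 := hr (σ.symm r)
    rwa [RingEquiv.apply_symm_apply] at h3
  · intro r y
    apply e.injective
    rw [he, AddEquiv.apply_symm_apply, AddEquiv.apply_symm_apply, RingEquiv.apply_symm_apply]

end Pool.Agent.Helper377_NH
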