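import Pool.Agent.Helper377_NH.Defs
import Pool.Agent.Helper377_G1.TaskGo
import Pool.Agent.Helper202_BG.I
import Pool.Agent.Helper202_BG.P3h

/-!
Finiteness of the relative length of finitely generated modules (TaskL2), given TaskL0, TaskL1
and TaskLz.
-/

set_option autoImplicit false

namespace Pool.Agent.Helper377_NH

open Pool.Agent.Helper202_BG Pool.Agent.Helper377_NS Pool.Agent.Helper377_AG Pool.Agent.Helper377_G1

namespace JobL2

variable {R : Type} [Ring R]

theorem regM_one (Q : Ideal R) : RegM Q (1 : R) :=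
  ⟨fun x h => by simpa using h, fun x h => by simpa using h⟩

/-- A left ideal containing a prime ideal `Q` contains an element regular modulo `Q`, or has zero
intersection modulo `Q` with a left ideal which is nonzero modulo `Q`. -/
theorem goldie [IsNoetherianRing R] (Q : Ideal R) (hQ : PrimeI Q) (T : Ideal R) :
    (∃ c ∈ T, RegM Q c) ∨ ∃ J : Ideal R, Q < J ∧ ∀ r ∈ T, r ∈ J → r ∈ Q := by
  obtain ⟨hts, hne, hpr⟩ := hQ
  have : Q.IsTwoSided := hts
  let π : R →+* R ⧸ Q := Ideal.Quotient.mk Q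
  have hsurj : Function.Surjective π := Ideal.Quotient.mk_surjective
  have hmem : ∀ r : R, π r = 0 ↔ r ∈ Q := fun r => Ideal.Quotient.eq_zero_iff_mem
  have hnoeth : IsNoetherianRing (R ⧸ Q) := isNoetherianRing_of_surjective R _ π hsurj
  have hsp : SemiprimeR (R ⧸ Q) := by
    intro a ha
    obtain ⟨a, rfl⟩ := hsurj a
    rw [hmem]
    refine (hpr a a fun r => ?_).elim id id
    have h1 := ha (π r)
    rwa [← map_mul, ← map_mul, hmem] at h1
  by_cases hess : EssL (T.map π)
  · left
    obtain ⟨c, hc, hreg⟩ := taskGo.1 (R ⧸ Q) hsp _ hess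
    obtain ⟨t, ht, rfl⟩ := (Ideal.mem_map_iff_of_surjective π hsurj).mp hc
    refine ⟨t, ht, fun x hx => ?_, fun x hx => ?_⟩
    · have h1 := hreg.1 (π x) (by rw [← map_mul, hmem]; exact hx)
      rwa [hmem] at h1
    · have h1 := hreg.2 (π x) (by rw [← map_mul, hmem]; exact hx)
      rwa [hmem] at h1
  · right
    unfold EssL at hess
    push Not at hess
    obtain ⟨J, hJ, hTJ⟩ := hess
    refine ⟨J.comap π, ?_, ?_⟩
    · refine lt_of_le_of_ne (fun r hr => ?_) ?_
      · rw [Ideal.mem_comap, (hmem r).2 hr]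
        exact J.zero_mem
      · intro heq
        apply hJ
        rw [eq_bot_iff]
        intro j hj
        obtain ⟨r, rfl⟩ := hsurj j
        have h1 : r ∈ J.comap π := hj
        rw [← heq] at h1
        exact (hmem r).2 h1
    · intro r hr hr'
      have h1 : π r ∈ T.map π ⊓ J := ⟨Ideal.mem_map_of_mem π hr, hr'⟩
      rw [hTJ] at h1
      exact (hmem r).1 h1

/-- existence of uniform submodules -/
theorem exists_uniform {L : Type} [AddCommGroup L] [Module R L] [IsNoetherian R L]
    (X : Submodule R L) (hX : X ≠ ⊥) : ∃ U : Submodule R L, U ≤ X ∧ U ≠ ⊥ ∧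
      ∀ D₁ D₂ : Submodule R L, D₁ ≤ U → D₂ ≤ U → D₁ ⊓ D₂ = ⊥ → D₁ = ⊥ ∨ D₂ = ⊥ := by
  obtain ⟨C, ⟨D, hDX, hD, hCD⟩, hmax⟩ :=
    set_has_maximal_iff_noetherian.mpr (inferInstance : IsNoetherian R L)
      {C : Submodule R L | ∃ D : Submodule R L, D ≤ X ∧ D ≠ ⊥ ∧ Disjoint C D}
      ⟨⊥, X, le_rfl, hX, disjoint_bot_left⟩
  refine ⟨D, hDX, hD, fun D₁ D₂ h1 h2 h12 => ?_⟩
  by_contra hcon
  push Not at hcon
  obtain ⟨hn1, hn2⟩ := hcon
  have hdis : Disjoint D₁ D₂ := disjoint_iff.mpr h12
  have h3 : Disjoint C (D₁ ⊔ D₂) := hCD.mono_right (sup_le h1 h2)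
  have h4 : Disjoint (C ⊔ D₁) D₂ := Disjoint.disjoint_sup_left_of_disjoint_sup_right hdis h3
  refine hmax (C ⊔ D₁) ⟨D₂, h2.trans hDX, hn2, h4⟩ (lt_of_le_of_ne le_sup_left fun heq => ?_)
  apply hn1
  have h5 : D₁ ≤ C := by rw [heq]; exact le_sup_right
  have h6 : Disjoint C D₁ := hCD.mono_right h1
  exact le_bot_iff.mp (h6 h5 le_rfl)

/-- a uniform module killed by a prime ideal which is the only relevant one has length at most
one -/
theorem len_le_one [IsNoetherianRing R] (S : Set (Ideal R)) (A : Ideal R) (hA : PrimeI A)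
    (hS : ∀ Q ∈ S, Q = A ∨ ∃ c ∈ A, RegM Q c) (U : Type) [AddCommGroup U] [Module R U]
    (hU : ∀ a ∈ A, ∀ u : U, a • u = 0)
    (huni : ∀ D₁ D₂ : Submodule R U, D₁ ⊓ D₂ = ⊥ → D₁ = ⊥ ∨ D₂ = ⊥) : len S U ≤ 1 := by
  have key : ∀ N N' : Submodule R U, N' ≠ ⊥ → Sm S N N' := by
    intro N N' hN' Q hQ u hu
    rcases hS Q hQ with rfl | ⟨c, hc, hreg⟩
    · have hQS := hQ
      rcases goldie Q hA (Submodule.comap (LinearMap.toSpanSingleton R U u) N') with ⟨c, hc, hreg⟩ | ⟨J, hJ, hTJ⟩
      · exact ⟨c, hreg, hc⟩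
      · exfalso
        have h1 : (Submodule.map (LinearMap.toSpanSingleton R U u) J) ⊓ N' = ⊥ := by
          rw [eq_bot_iff]
          rintro _ ⟨⟨j, hj, rfl⟩, hj'⟩
          have h2 : j ∈ Q := hTJ j hj' hj
          exact hU j h2 u
        rcases huni _ _ h1 with h2 | h2
        · apply hJ.not_ge
          intro j hj
          refine hTJ j ?_ hj
          have h3 : (LinearMap.toSpanSingleton R U u) j ∈
              Submodule.map (LinearMap.toSpanSingleton R U u) J :=
            Submodule.mem_map_of_mem hj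
          rw [h2, Submodule.mem_bot] at h3
          show (LinearMap.toSpanSingleton R U u) j ∈ N'
          rw [h3]
          exact N'.zero_mem
        · exact hN' h2
    · refine ⟨c, hreg, ?_⟩
      rw [hU c hc u]
      exact N'.zero_mem
  have key' : ∀ N' : Submodule R U, Sm S ⊥ N' := by
    intro N' Q hQ u hu
    refine ⟨1, regM_one Q, ?_⟩
    rw [(Submodule.mem_bot R).mp hu, smul_zero]
    exact N'.zero_mem
  unfold len
  refine iSup_le fun n => iSup_le fun f => iSup_le fun hf => ?_
  have h1 : cnt S n f ≤ 1 := by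
    classical
    unfold cnt
    rw [Finset.card_le_one]
    have h2 : ∀ i, ¬ Sm S (f i) (f (i + 1)) → f i ≠ ⊥ ∧ f (i + 1) = ⊥ := by
      intro i hi
      constructor
      · intro h
        rw [h] at hi
        exact hi (key' _)
      · by_contra h
        exact hi (key _ _ h)
    have h3 : ∀ i j, ¬ Sm S (f i) (f (i + 1)) → ¬ Sm S (f j) (f (j + 1)) → ¬ i < j := by
      intro i j hi hj hij
      apply (h2 j hj).1
      rw [eq_bot_iff, ← (h2 i hi).2]
      exact hf hij
    intro i hi j hj
    rw [Finset.mem_filter] at hi hj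
    have h4 := h3 i j hi.2 hj.2
    have h5 := h3 j i hj.2 hi.2
    omega
  exact_mod_cast h1

end JobL2

open JobL2 in
theorem taskL2 (h0 : TaskL0) (h1 : TaskL1) (hz : TaskLz) : TaskL2 := by
  intro R _ _ I S hS L _ _ _ hI htop
  have hnL : IsNoetherian R L := inferInstance
  obtain ⟨N, ⟨Z, iZ1, iZ2, p, hp, hker, hlen⟩, hmax⟩ :=
    set_has_maximal_iff_noetherian.mpr hnL
      {N : Submodule R L | ∃ (Z : Type) (_ : AddCommGroup Z) (_ : Module R Z) (p : L →ₗ[R] Z),
        Function.Surjective p ∧ LinearMap.ker p = N ∧ len S Z = ⊤}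
      ⟨LinearMap.ker (LinearMap.id : L →ₗ[R] L), L, inferInstance, inferInstance, LinearMap.id,
        Function.surjective_id, rfl, htop⟩
  have hfZ : Module.Finite R Z := Module.Finite.of_surjective p hp
  have hnZ : IsNoetherian R Z := inferInstance
  have hIZ : ∀ a ∈ I, ∀ x : Z, a • x = 0 := by
    intro a ha z
    obtain ⟨x, rfl⟩ := hp z
    rw [← map_smul, hI a ha x, map_zero]
  have hquot : ∀ U : Submodule R Z, U ≠ ⊥ → len S (Z ⧸ U) ≠ ⊤ := by
    intro U hU hq
    refine hmax (LinearMap.ker (U.mkQ ∘ₗ p)) ⟨Z ⧸ U, inferInstance, inferInstance, U.mkQ ∘ₗ p,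
      U.mkQ_surjective.comp hp, rfl, hq⟩ (lt_of_le_of_ne ?_ ?_)
    · rw [← hker]
      intro x hx
      rw [LinearMap.mem_ker] at hx ⊢
      rw [LinearMap.comp_apply, hx, map_zero]
    · intro heq
      apply hU
      rw [eq_bot_iff]
      intro z hz'
      obtain ⟨x, rfl⟩ := hp z
      have h2 : x ∈ LinearMap.ker (U.mkQ ∘ₗ p) := by
        rw [LinearMap.mem_ker, LinearMap.comp_apply, Submodule.mkQ_apply,
          Submodule.Quotient.mk_eq_zero]
        exact hz'
      rw [← heq, ← hker, LinearMap.mem_ker] at h2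
      rw [h2]
      exact Submodule.zero_mem _
  have hsub : ∀ U : Submodule R Z, U ≠ ⊥ → len S U = ⊤ := by
    intro U hU
    have h2 := h1 R S U Z (Z ⧸ U) U.subtype U.mkQ (SES.mkQ U)
    rw [hlen] at h2
    by_contra h3
    exact (WithTop.add_ne_top.mpr ⟨h3, hquot U hU⟩) h2.symm
  have hnt : Nontrivial Z := by
    by_contra hcon
    rw [not_nontrivial_iff_subsingleton] at hcon
    have h2 : len S Z = 0 := by
      rw [hz R S Z]
      intro Q hQ x hx
      exact ⟨1, regM_one Q, by
        rw [Subsingleton.elim ((1 : R) • x) 0]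
        exact Submodule.zero_mem _⟩
    rw [hlen] at h2
    exact absurd h2 (by simp)
  obtain ⟨X, hX, hXp⟩ := TI.exists_prime_submodule (A := R) (X := Z)
  have hA : PrimeI (Module.annihilator R X) := primeI_ann _ hXp
  obtain ⟨U, hUX, hU, huni⟩ := exists_uniform X hX
  have hIA : I ≤ Module.annihilator R X := by
    intro a ha
    rw [Module.mem_annihilator]
    intro x
    exact Subtype.ext (by simpa using hIZ a ha x)
  have hle : len S U ≤ 1 := by
    refine len_le_one S (Module.annihilator R X) hA ?_ U ?_ ?_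
    · intro Q hQ
      by_cases hAQ : Module.annihilator R X ≤ Q
      · left
        exact ((hS Q hQ).2.2 _ hA hIA hAQ).symm
      · right
        exact h0 R Q _ (hS Q hQ).1 inferInstance hAQ
    · intro a ha u
      rw [Module.mem_annihilator] at ha
      have h2 := congrArg Subtype.val (ha ⟨u.1, hUX u.2⟩)
      exact Subtype.ext (by simpa using h2)
    · intro D₁ D₂ h12
      have h2 := huni (D₁.map U.subtype) (D₂.map U.subtype) (Submodule.map_subtype_le _ _)
        (Submodule.map_subtype_le _ _) (by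
          rw [← Submodule.map_inf _ U.injective_subtype, h12, Submodule.map_bot])
      have hbot : ∀ D : Submodule R U, D.map U.subtype = ⊥ → D = ⊥ := fun D hD =>
        Submodule.map_injective_of_injective U.injective_subtype
          (hD.trans (Submodule.map_bot _).symm)
      exact h2.imp (hbot D₁) (hbot D₂)
  rw [hsub U hU] at hle
  exact absurd hle (by simp)

end Pool.Agent.Helper377_NH
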