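import Pool.Agent.Helper377_NH.Defs

set_option autoImplicit false

namespace Pool.Agent.Helper377_NH

open Pool.Agent.Helper202_BG Pool.Agent.Helper377_NS Pool.Agent.Helper377_AG

namespace JobL3

section lam
variable {R : Type} [Ring R]

/-- relative length of a pair of left ideals -/
noncomputable def lam (S : Set (Ideal R)) (B A : Ideal R) : ℕ∞ :=
  len S (↥A ⧸ Submodule.comap (Submodule.subtype A) B)

theorem lam_eq (ht : TaskLt) (S : Set (Ideal R)) (σ : R ≃+* R)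
    (h1 : ∀ Q ∈ S, ∃ Q' ∈ S, ∀ r, r ∈ Q' ↔ σ r ∈ Q)
    (h2 : ∀ Q ∈ S, ∃ Q' ∈ S, ∀ r, σ r ∈ Q' ↔ r ∈ Q)
    (f : R →+ R) (hf : ∀ r x, f (r * x) = σ r * f x) (A B A' B' : Ideal R)
    (hA : ∀ x ∈ A, f x ∈ A') (hB : ∀ x ∈ A, f x ∈ B' ↔ x ∈ B)
    (hs : ∀ y ∈ A', ∃ x ∈ A, y - f x ∈ B') : lam S B A = lam S B' A' := by
  let g : ↥A →ₛₗ[(σ : R →+* R)] (↥A' ⧸ Submodule.comap (Submodule.subtype A') B') :=
    { toFun := fun x => Submodule.Quotient.mk ⟨f x.1, hA x.1 x.2⟩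
      map_add' := by
        intro x y
        rw [← Submodule.Quotient.mk_add]
        congr 1
        apply Subtype.ext
        simp
      map_smul' := by
        intro r x
        rw [← Submodule.Quotient.mk_smul]
        congr 1
        apply Subtype.ext
        simp [hf] }
  have hg : ∀ x : ↥A, g x = 0 ↔ x ∈ Submodule.comap (Submodule.subtype A) B := by
    intro x
    show (Submodule.Quotient.mk _ : ↥A' ⧸ Submodule.comap (Submodule.subtype A') B') = 0 ↔ _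
    rw [Submodule.Quotient.mk_eq_zero]
    exact hB x.1 x.2
  let G := Submodule.liftQ (Submodule.comap (Submodule.subtype A) B) g
    (fun x hx => (hg x).2 hx)
  have hG : ∀ x, G (Submodule.Quotient.mk x) = g x := fun x => rfl
  have hinj : Function.Injective G := by
    rw [injective_iff_map_eq_zero]
    intro x
    obtain ⟨x, rfl⟩ := Submodule.Quotient.mk_surjective _ x
    intro hx
    rw [hG] at hx
    exact (Submodule.Quotient.mk_eq_zero _).2 ((hg x).1 hx)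
  have hsurj : Function.Surjective G := by
    intro y
    obtain ⟨y, rfl⟩ := Submodule.Quotient.mk_surjective _ y
    obtain ⟨x, hx, hxy⟩ := hs y.1 y.2
    refine ⟨Submodule.Quotient.mk ⟨x, hx⟩, ?_⟩
    rw [hG]
    symm
    exact (Submodule.Quotient.eq _).2 hxy
  exact ht R S σ h1 h2 _ _ (AddEquiv.ofBijective G ⟨hinj, hsurj⟩)
    (fun r x => G.map_smulₛₗ r x)

theorem lam_add (h1 : TaskL1) (S : Set (Ideal R)) (C B A : Ideal R) (hCB : C ≤ B) (hBA : B ≤ A) :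
    lam S C A = lam S C B + lam S B A := by
  let i : (↥B ⧸ Submodule.comap (Submodule.subtype B) C) →ₗ[R]
      (↥A ⧸ Submodule.comap (Submodule.subtype A) C) :=
    Submodule.mapQ _ _ (Submodule.inclusion hBA) (fun x hx => hx)
  let p : (↥A ⧸ Submodule.comap (Submodule.subtype A) C) →ₗ[R]
      (↥A ⧸ Submodule.comap (Submodule.subtype A) B) :=
    Submodule.mapQ _ _ LinearMap.id (fun x hx => hCB hx)
  refine h1 R S _ _ _ i p ⟨?_, ?_, ?_⟩
  · rw [injective_iff_map_eq_zero]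
    intro x
    obtain ⟨x, rfl⟩ := Submodule.Quotient.mk_surjective _ x
    intro hx
    have hx' := (Submodule.Quotient.mk_eq_zero _).1 hx
    exact (Submodule.Quotient.mk_eq_zero _).2 hx'
  · intro y
    obtain ⟨y, rfl⟩ := Submodule.Quotient.mk_surjective _ y
    exact ⟨Submodule.Quotient.mk y, rfl⟩
  · intro y
    obtain ⟨y, rfl⟩ := Submodule.Quotient.mk_surjective _ y
    constructor
    · intro hy
      have hy' : y ∈ Submodule.comap (Submodule.subtype A) B :=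
        (Submodule.Quotient.mk_eq_zero _).1 hy
      refine ⟨Submodule.Quotient.mk ⟨y.1, hy'⟩, ?_⟩
      rfl
    · rintro ⟨x, hx⟩
      obtain ⟨x, rfl⟩ := Submodule.Quotient.mk_surjective _ x
      have hx' : (Submodule.inclusion hBA x) - y ∈ Submodule.comap (Submodule.subtype A) C :=
        (Submodule.Quotient.eq _).1 hx
      have h3 : x.1 - y.1 ∈ C := hx'
      show Submodule.Quotient.mk y = 0
      rw [Submodule.Quotient.mk_eq_zero]
      show y.1 ∈ B
      have h4 := B.sub_mem x.2 (hCB h3)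
      rwa [sub_sub_cancel] at h4

theorem lam_fin (h2 : TaskL2) [IsNoetherianRing R] (S : Set (Ideal R)) (I : Ideal R)
    (hS : ∀ Q ∈ S, MinOver I Q) (B A : Ideal R) (h : ∀ a ∈ I, ∀ x ∈ A, a * x ∈ B) :
    lam S B A ≠ ⊤ := by
  refine h2 R I S hS _ ?_
  intro a ha x
  obtain ⟨x, rfl⟩ := Submodule.Quotient.mk_surjective _ x
  rw [← Submodule.Quotient.mk_smul, Submodule.Quotient.mk_eq_zero]
  exact h a ha x.1 x.2

theorem lam_zero (hz : TaskLz) (S : Set (Ideal R)) (B : Ideal R) (h : lam S B ⊤ = 0)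
    (P : Ideal R) (hP : P ∈ S) : ∃ c, RegM P c ∧ c ∈ B := by
  have h3 := (hz R S _).1 h P hP (Submodule.Quotient.mk ⟨1, Submodule.mem_top⟩) Submodule.mem_top
  obtain ⟨c, hc, hc2⟩ := h3
  refine ⟨c, hc, ?_⟩
  rw [Submodule.mem_bot, ← Submodule.Quotient.mk_smul, Submodule.Quotient.mk_eq_zero] at hc2
  have : c * 1 ∈ B := hc2
  rwa [mul_one] at this

end lam

section main
variable {R : Type} [Ring R]

/-- the automorphism defined by a normal element -/
theorem aut (hS : PrimeI (⊥ : Ideal R)) (z : R)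
    (hz : z ≠ 0) (h1 : ∀ r : R, ∃ s, z * r = s * z) (h2 : ∀ r : R, ∃ s, r * z = z * s) :
    ∃ σ : R ≃+* R, (∀ s : R, z * s = σ s * z) ∧ (∀ a : R, a * z = 0 → a = 0) ∧
      (∀ a : R, z * a = 0 → a = 0) := by
  have hS2 : ∀ a b : R, (∀ r, a * r * b = 0) → a = 0 ∨ b = 0 := by
    intro a b h
    have := hS.2.2 a b (fun r => by rw [h r]; exact Submodule.zero_mem _)
    simpa using this
  have hr : ∀ a : R, a * z = 0 → a = 0 := by
    intro a ha
    rcases hS2 a z (fun s => by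
      obtain ⟨s', hs'⟩ := h2 s
      rw [mul_assoc, hs', ← mul_assoc, ha, zero_mul]) with h | h
    · exact h
    · exact absurd h hz
  have hl : ∀ a : R, z * a = 0 → a = 0 := by
    intro a ha
    rcases hS2 z a (fun s => by
      obtain ⟨s', hs'⟩ := h1 s
      rw [hs', mul_assoc, ha, mul_zero]) with h | h
    · exact absurd h hz
    · exact h
  choose f hf using h1
  have huniq : ∀ s t : R, z * s = t * z → f s = t := by
    intro s t h
    rw [hf s] at h
    have := hr (f s - t) (by rw [sub_mul, h, sub_self])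
    exact sub_eq_zero.mp this
  have hf1 : f 1 = 1 := huniq 1 1 (by rw [mul_one, one_mul])
  have hf0 : f 0 = 0 := huniq 0 0 (by rw [mul_zero, zero_mul])
  have hadd : ∀ x y, f (x + y) = f x + f y := fun x y =>
    huniq _ _ (by rw [mul_add, add_mul, hf x, hf y])
  have hmul : ∀ x y, f (x * y) = f x * f y := fun x y =>
    huniq _ _ (by rw [← mul_assoc, hf x, mul_assoc, hf y, mul_assoc])
  let g : R →+* R :=
    { toFun := f, map_one' := hf1, map_mul' := hmul, map_zero' := hf0, map_add' := hadd }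
  have hg : ∀ x, g x = f x := fun _ => rfl
  have hinj : Function.Injective g := by
    intro x y hxy
    rw [hg, hg] at hxy
    have h3 : z * (x - y) = 0 := by rw [mul_sub, hf x, hf y, hxy, sub_self]
    exact sub_eq_zero.mp (hl _ h3)
  have hsurj : Function.Surjective g := by
    intro r
    obtain ⟨s, hs⟩ := h2 r
    exact ⟨s, huniq s r hs.symm⟩
  exact ⟨RingEquiv.ofBijective g ⟨hinj, hsurj⟩, fun s => hf s, hr, hl⟩

/-- transport of minimal primes -/
theorem minOver_comap (z : R) (σ : R ≃+* R) (hσz : σ z = z) (Q : Ideal R)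
    (hQ : MinOver (Ideal.span {z}) Q) : MinOver (Ideal.span {z}) (Ideal.comap σ Q) := by
  have pr : ∀ (τ : R ≃+* R) (P : Ideal R), PrimeI P → PrimeI (Ideal.comap τ P) := by
    intro τ P hP
    have := hP.1
    refine ⟨⟨fun {a} b ha => ?_⟩, ?_, ?_⟩
    · rw [Ideal.mem_comap, map_mul]
      exact P.mul_mem_right _ ha
    · intro h
      apply hP.2.1
      rw [Ideal.eq_top_iff_one] at h ⊢
      rw [Ideal.mem_comap, map_one] at h
      exact h
    · intro a b hab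
      refine hP.2.2 (τ a) (τ b) (fun r => ?_)
      have := hab (τ.symm r)
      rw [Ideal.mem_comap, map_mul, map_mul, RingEquiv.apply_symm_apply] at this
      exact this
  obtain ⟨h1, h2, h3⟩ := hQ
  have hσz' : σ.symm z = z := by
    rw [RingEquiv.symm_apply_eq, hσz]
  refine ⟨pr σ Q h1, ?_, ?_⟩
  · rw [Ideal.span_singleton_le_iff_mem, Ideal.mem_comap, hσz]
    exact (Ideal.span_singleton_le_iff_mem _).1 h2
  · intro Q' hQ' hz' hle
    have h4 := h3 (Ideal.comap σ.symm Q') (pr σ.symm Q' hQ') (by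
      rw [Ideal.span_singleton_le_iff_mem, Ideal.mem_comap]
      show σ.symm z ∈ Q'
      rw [hσz']
      exact (Ideal.span_singleton_le_iff_mem _).1 hz') (by
      intro x hx
      have hx' : σ.symm x ∈ Q' := hx
      have := hle hx'
      rw [Ideal.mem_comap, RingEquiv.apply_symm_apply] at this
      exact this)
    ext x
    constructor
    · intro hx; exact hle hx
    · intro hx
      have hx' : σ x ∈ Q := hx
      rw [← h4, Ideal.mem_comap] at hx'
      have hx2 : σ.symm (σ x) ∈ Q' := hx'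
      rwa [RingEquiv.symm_apply_apply] at hx2

theorem pow_mem_prime (z : R) (σ : R ≃+* R) (hσ : ∀ s : R, z * s = σ s * z) (Q : Ideal R)
    (hQ : PrimeI Q) : ∀ t : ℕ, z ^ t ∈ Q → z ∈ Q := by
  intro t
  induction t with
  | zero =>
    intro h
    rw [pow_zero] at h
    exact absurd ((Ideal.eq_top_iff_one _).2 h) hQ.2.1
  | succ t ih =>
    intro h
    rcases hQ.2.2 z (z ^ t) (fun r => by
      rw [hσ, mul_assoc, ← pow_succ']
      exact Q.mul_mem_left _ h) with h' | h'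
    · exact h'
    · exact ih h'

theorem pow_mul_mem_prime (z : R) (σ : R ≃+* R) (hσ : ∀ s : R, z * s = σ s * z) (Q : Ideal R)
    (hQ : PrimeI Q) (hz : z ∉ Q) : ∀ (t : ℕ) (x : R), z ^ t * x ∈ Q → x ∈ Q := by
  intro t
  induction t with
  | zero =>
    intro x h
    rwa [pow_zero, one_mul] at h
  | succ t ih =>
    intro x h
    rw [pow_succ', mul_assoc] at h
    rcases hQ.2.2 z (z ^ t * x) (fun r => by
      rw [hσ, mul_assoc]
      exact Q.mul_mem_left _ h) with h' | h'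
    · exact absurd h' hz
    · exact ih x h'

theorem pow_comm (z : R) (σ : R ≃+* R) (hσ : ∀ s : R, z * s = σ s * z) (t : ℕ) (s : R) :
    ∃ s', z ^ t * s = s' * z ^ t := by
  induction t generalizing s with
  | zero => exact ⟨s, by rw [pow_zero, one_mul, mul_one]⟩
  | succ t ih =>
    obtain ⟨s', hs'⟩ := ih (σ s)
    exact ⟨s', by rw [pow_succ, mul_assoc, hσ, ← mul_assoc, hs', mul_assoc]⟩

/-- the ideals `{r | z ^ t * r ∈ R c}` -/
def Yi (z : R) (σ : R ≃+* R) (hσ : ∀ s : R, z * s = σ s * z) (C : Ideal R) (t : ℕ) :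
    Ideal R where
  carrier := {r | z ^ t * r ∈ C}
  zero_mem' := by
    show z ^ t * 0 ∈ C
    rw [mul_zero]; exact C.zero_mem
  add_mem' := by
    intro a b ha hb
    show z ^ t * (a + b) ∈ C
    rw [mul_add]; exact C.add_mem ha hb
  smul_mem' := by
    intro s x hx
    show z ^ t * (s * x) ∈ C
    obtain ⟨s', hs'⟩ := pow_comm z σ hσ t s
    rw [← mul_assoc, hs', mul_assoc]
    exact C.mul_mem_left _ hx

theorem mem_Yi (z : R) (σ : R ≃+* R) (hσ : ∀ s : R, z * s = σ s * z) (C : Ideal R) (t : ℕ)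
    (x : R) : x ∈ Yi z σ hσ C t ↔ z ^ t * x ∈ C := Iff.rfl

/-- the ideal `z X` -/
def zI (z : R) (σ : R ≃+* R) (hσ : ∀ s : R, z * s = σ s * z) (X : Ideal R) :
    Ideal R where
  carrier := {r | ∃ x ∈ X, r = z * x}
  zero_mem' := ⟨0, X.zero_mem, by rw [mul_zero]⟩
  add_mem' := by
    rintro a b ⟨x, hx, rfl⟩ ⟨y, hy, rfl⟩
    exact ⟨x + y, X.add_mem hx hy, by rw [mul_add]⟩
  smul_mem' := by
    rintro s _ ⟨x, hx, rfl⟩
    refine ⟨σ.symm s * x, X.mul_mem_left _ hx, ?_⟩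
    rw [← mul_assoc z, hσ (σ.symm s), RingEquiv.apply_symm_apply, mul_assoc, smul_eq_mul]

theorem mem_zI (z : R) (σ : R ≃+* R) (hσ : ∀ s : R, z * s = σ s * z) (X : Ideal R)
    (x : R) : x ∈ zI z σ hσ X ↔ ∃ y ∈ X, x = z * y := Iff.rfl

theorem ncancel {a b c : ℕ∞} (h : a + b = c + a) (ha : a ≠ ⊤) : b = c := by
  rw [add_comm c a] at h
  rw [add_comm a b, add_comm a c] at h
  exact ENat.add_left_injective_of_ne_top ha h

/-- the principal ideal theorem over a prime ring -/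
theorem prime_case (h0 : TaskL0) (h1 : TaskL1) (hz : TaskLz) (ht : TaskLt) (h2 : TaskL2)
    [IsNoetherianRing R] (hR : PrimeI (⊥ : Ideal R)) (P' P : Ideal R) (hP' : PrimeI P')
    (hP : PrimeI P) (hne : P' ≠ ⊥) (hlt : P' < P) (z : R) (hzP : z ∈ P) (hzP' : z ∉ P')
    (hn1 : ∀ r : R, ∃ s, z * r = s * z) (hn2 : ∀ r : R, ∃ s, r * z = z * s) :
    ∃ P'' : Ideal R, PrimeI P'' ∧ z ∈ P'' ∧ P'' < P := by
  by_contra hcon
  have hz0 : z ≠ 0 := fun h => hzP' (h ▸ P'.zero_mem)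
  obtain ⟨σ, hσ, hrz, hlz⟩ := aut hR z hz0 hn1 hn2
  have hσz : σ z = z := by
    have : (z - σ z) * z = 0 := by rw [sub_mul, hσ z, sub_self]
    exact (sub_eq_zero.1 (hrz _ this)).symm
  have hσz' : σ.symm z = z := by rw [RingEquiv.symm_apply_eq, hσz]
  set S : Set (Ideal R) := {Q | MinOver (Ideal.span {z}) Q} with hSdef
  have hPS : P ∈ S := by
    refine ⟨hP, (Ideal.span_singleton_le_iff_mem _).2 hzP, ?_⟩
    intro Q' hQ' hzQ' hle
    by_contra hneq
    exact hcon ⟨Q', hQ', (Ideal.span_singleton_le_iff_mem _).1 hzQ', lt_of_le_of_ne hle hneq⟩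
  have hS1 : ∀ Q ∈ S, ∃ Q' ∈ S, ∀ r, r ∈ Q' ↔ σ r ∈ Q :=
    fun Q hQ => ⟨Ideal.comap σ Q, minOver_comap z σ hσz Q hQ, fun r => Iff.rfl⟩
  have hS2 : ∀ Q ∈ S, ∃ Q' ∈ S, ∀ r, σ r ∈ Q' ↔ r ∈ Q := by
    intro Q hQ
    refine ⟨Ideal.comap σ.symm Q, minOver_comap z σ.symm hσz' Q hQ, fun r => ?_⟩
    rw [Ideal.mem_comap]
    show σ.symm (σ r) ∈ Q ↔ _
    rw [RingEquiv.symm_apply_apply]
  have hid : ∀ Q ∈ S, ∃ Q' ∈ S, ∀ r, r ∈ Q' ↔ (RingEquiv.refl R) r ∈ Q :=
    fun Q hQ => ⟨Q, hQ, fun r => Iff.rfl⟩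
  have hid' : ∀ Q ∈ S, ∃ Q' ∈ S, ∀ r, (RingEquiv.refl R) r ∈ Q' ↔ r ∈ Q :=
    fun Q hQ => ⟨Q, hQ, fun r => Iff.rfl⟩
  obtain ⟨c, hcP', hc1, hc2⟩ := h0 R ⊥ P' hR hP'.1 (fun h => hne (le_bot_iff.1 h))
  have hrc : ∀ x, x * c = 0 → x = 0 := fun x hx => by
    have := hc2 x (by rw [hx]; exact Submodule.zero_mem _)
    simpa using this
  -- the ideals
  set Rc : Ideal R := Ideal.span {c} with hRc
  set Rz : Ideal R := Ideal.span {z} with hRz
  set Rzc : Ideal R := Ideal.span {z * c} with hRzc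
  have mRc : ∀ x, x ∈ Rc ↔ ∃ a, a * c = x := fun x => Ideal.mem_span_singleton'
  have mRz : ∀ x, x ∈ Rz ↔ ∃ a, a * z = x := fun x => Ideal.mem_span_singleton'
  have mRzc : ∀ x, x ∈ Rzc ↔ ∃ a, a * (z * c) = x := fun x => Ideal.mem_span_singleton'
  have zRz : ∀ x, z * x ∈ Rz := fun x => (mRz _).2 ⟨σ x, (hσ x).symm⟩
  have Rz_z : ∀ x ∈ Rz, ∃ y, x = z * y := by
    intro x hx
    obtain ⟨a, rfl⟩ := (mRz x).1 hx
    exact ⟨σ.symm a, by rw [hσ, RingEquiv.apply_symm_apply]⟩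
  have Rzr : ∀ x ∈ Rz, ∀ y, x * y ∈ Rz := by
    intro x hx y
    obtain ⟨a, rfl⟩ := (mRz x).1 hx
    rw [mul_assoc, hσ, ← mul_assoc]
    exact Rz.mul_mem_left _ ((mRz z).2 ⟨1, one_mul _⟩)
  have hRzc1 : Rzc ≤ Rc ⊓ Rz := by
    intro x hx
    obtain ⟨a, rfl⟩ := (mRzc x).1 hx
    refine ⟨(mRc _).2 ⟨a * z, by rw [mul_assoc]⟩, ?_⟩
    rw [← mul_assoc]
    exact Rzr _ ((mRz _).2 ⟨a, rfl⟩) c
  -- multiplication maps
  let fz : R →+ R := AddMonoidHom.mulLeft z
  let fc : R →+ R := AddMonoidHom.mulRight c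
  have hfz : ∀ x, fz x = z * x := fun x => rfl
  have hfc : ∀ x, fc x = x * c := fun x => rfl
  have hfz' : ∀ r x, fz (r * x) = σ r * fz x := by
    intro r x
    rw [hfz, hfz, ← mul_assoc, hσ, mul_assoc]
  have hfc' : ∀ r x, fc (r * x) = (RingEquiv.refl R) r * fc x := by
    intro r x
    rw [hfc, hfc, mul_assoc]; rfl
  -- Step 1
  have fin1 : lam S Rz ⊤ ≠ ⊤ := by
    refine lam_fin h2 S Rz (fun Q hQ => hQ) Rz ⊤ ?_
    intro a ha x _
    exact Rzr a ha x
  have e1 : lam S Rz ⊤ = lam S Rz (Rc ⊔ Rz) + lam S (Rc ⊔ Rz) ⊤ :=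
    lam_add h1 S _ _ _ le_sup_right le_top
  have e2 : lam S (Rc ⊓ Rz) Rc = lam S Rz (Rc ⊔ Rz) := by
    refine lam_eq ht S (RingEquiv.refl R) hid hid' (AddMonoidHom.id R) (fun r x => rfl) _ _ _ _
      (fun x hx => ?_) (fun x hx => ?_) (fun y hy => ?_)
    · exact (le_sup_left : Rc ≤ Rc ⊔ Rz) hx
    · exact ⟨fun h => ⟨hx, h⟩, fun h => h.2⟩
    · obtain ⟨a, ha, b, hb, rfl⟩ := Submodule.mem_sup.1 hy
      refine ⟨a, ha, ?_⟩
      rw [AddMonoidHom.id_apply, add_sub_cancel_left]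
      exact hb
  have e3 : lam S Rz ⊤ = lam S Rzc Rc := by
    refine lam_eq ht S (RingEquiv.refl R) hid hid' fc hfc' _ _ _ _
      (fun x hx => ?_) (fun x hx => ?_) (fun y hy => ?_)
    · exact (mRc _).2 ⟨x, rfl⟩
    · rw [hfc]
      constructor
      · intro h
        obtain ⟨a, ha⟩ := (mRzc _).1 h
        have : (x - a * z) * c = 0 := by rw [sub_mul, mul_assoc, ha, sub_self]
        exact (mRz _).2 ⟨a, (sub_eq_zero.1 (hrc _ this)).symm⟩
      · intro h
        obtain ⟨a, rfl⟩ := (mRz _).1 h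
        exact (mRzc _).2 ⟨a, by rw [mul_assoc]⟩
    · obtain ⟨a, rfl⟩ := (mRc _).1 hy
      refine ⟨a, Submodule.mem_top, ?_⟩
      rw [hfc, sub_self]
      exact Rzc.zero_mem
  have e4 : lam S Rzc Rc = lam S Rzc (Rc ⊓ Rz) + lam S (Rc ⊓ Rz) Rc :=
    lam_add h1 S _ _ _ hRzc1 inf_le_left
  have fin2 : lam S (Rc ⊓ Rz) Rc ≠ ⊤ := by
    intro h
    rw [h, add_top, ← e3] at e4
    exact fin1 e4
  have E1 : lam S (Rc ⊔ Rz) ⊤ = lam S Rzc (Rc ⊓ Rz) := by
    refine ncancel ?_ fin2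
    rw [← e4, ← e3, e1, e2]
  -- the chain of ideals
  have hmono : Monotone (Yi z σ hσ Rc) := by
    refine monotone_nat_of_le_succ (fun n x hx => ?_)
    rw [mem_Yi] at hx ⊢
    rw [pow_succ', mul_assoc]
    exact Rc.mul_mem_left _ hx
  obtain ⟨T₀, hT₀⟩ := (monotone_stabilizes_iff_noetherian (R := R) (M := R)).2 inferInstance
    ⟨Yi z σ hσ Rc, hmono⟩
  set T := T₀ + 1 with hT
  set Y := Yi z σ hσ Rc T with hY
  set Y₁ := Yi z σ hσ Rc 1 with hY₁
  have hYs : ∀ x, z ^ (T + 1) * x ∈ Rc → x ∈ Y := by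
    intro x hx
    have ha : Yi z σ hσ Rc T₀ = Yi z σ hσ Rc (T + 1) := hT₀ (T + 1) (by omega)
    have hb : Yi z σ hσ Rc T₀ = Yi z σ hσ Rc T := hT₀ T (by omega)
    rw [hY, ← hb, ha]
    exact hx
  have mY₁ : ∀ x, x ∈ Y₁ ↔ z * x ∈ Rc := by
    intro x
    rw [hY₁, mem_Yi, pow_one]
  have hRcY₁ : Rc ≤ Y₁ := fun x hx => (mY₁ x).2 (Rc.mul_mem_left _ hx)
  have hY₁Y : Y₁ ≤ Y := hmono (by omega)
  have hRcY : Rc ≤ Y := hRcY₁.trans hY₁Y
  -- Step 2
  have E2 : lam S Rc Y₁ = lam S Rzc (Rc ⊓ Rz) := by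
    refine lam_eq ht S σ hS1 hS2 fz hfz' _ _ _ _
      (fun x hx => ?_) (fun x hx => ?_) (fun y hy => ?_)
    · exact ⟨(mY₁ x).1 hx, zRz x⟩
    · rw [hfz]
      constructor
      · intro h
        obtain ⟨a, ha⟩ := (mRzc _).1 h
        have h5 : z * (x - σ.symm a * c) = 0 := by
          rw [mul_sub, ← mul_assoc, hσ (σ.symm a), RingEquiv.apply_symm_apply, mul_assoc, ha,
            sub_self]
        exact (mRc _).2 ⟨σ.symm a, (sub_eq_zero.1 (hlz _ h5)).symm⟩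
      · intro h
        obtain ⟨a, rfl⟩ := (mRc _).1 h
        exact (mRzc _).2 ⟨σ a, by rw [← mul_assoc, ← hσ, mul_assoc]⟩
    · obtain ⟨x, rfl⟩ := Rz_z y hy.2
      refine ⟨x, (mY₁ x).2 hy.1, ?_⟩
      rw [hfz, sub_self]
      exact Rzc.zero_mem
  -- Step 3
  set zY := zI z σ hσ Y with hzY
  have hzYY : zY ≤ Y := by
    rintro x ⟨y, hy, rfl⟩
    exact Y.mul_mem_left _ hy
  have hSt : ∀ Q ∈ S, MinOver (Ideal.span {z ^ T}) Q := by
    intro Q hQ
    refine ⟨hQ.1, ?_, ?_⟩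
    · rw [Ideal.span_singleton_le_iff_mem, hT, pow_succ]
      exact Q.mul_mem_left _ ((Ideal.span_singleton_le_iff_mem _).1 hQ.2.1)
    · intro Q' hQ' hzQ' hle
      refine hQ.2.2 Q' hQ' ?_ hle
      rw [Ideal.span_singleton_le_iff_mem] at hzQ' ⊢
      exact pow_mem_prime z σ hσ Q' hQ' T hzQ'
  have fin3 : lam S Rc Y ≠ ⊤ := by
    refine lam_fin h2 S _ hSt Rc Y ?_
    intro a ha x hx
    obtain ⟨b, rfl⟩ := Ideal.mem_span_singleton'.1 ha
    rw [mul_assoc]
    exact Rc.mul_mem_left _ hx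
  have e5 : lam S Rc Y = lam S Rc Y₁ + lam S Y₁ Y := lam_add h1 S _ _ _ hRcY₁ hY₁Y
  have e6 : lam S Rc Y = lam S Rc (zY ⊔ Rc) + lam S (zY ⊔ Rc) Y :=
    lam_add h1 S _ _ _ le_sup_right (sup_le hzYY hRcY)
  have e7 : lam S Y₁ Y = lam S Rc (zY ⊔ Rc) := by
    refine lam_eq ht S σ hS1 hS2 fz hfz' _ _ _ _
      (fun x hx => ?_) (fun x hx => ?_) (fun y hy => ?_)
    · exact (le_sup_left : zY ≤ zY ⊔ Rc) ⟨x, hx, rfl⟩
    · rw [hfz]
      exact (mY₁ x).symm
    · obtain ⟨a, ⟨x, hx, rfl⟩, b, hb, rfl⟩ := Submodule.mem_sup.1 hy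
      refine ⟨x, hx, ?_⟩
      rw [hfz, add_sub_cancel_left]
      exact hb
  have fin4 : lam S Y₁ Y ≠ ⊤ := by
    intro h
    rw [h, add_top] at e5
    exact fin3 e5
  have fin5 : lam S Rc Y₁ ≠ ⊤ := by
    intro h
    rw [h, top_add] at e5
    exact fin3 e5
  have E3 : lam S (zY ⊔ Rc) Y = lam S Rc Y₁ := by
    refine ncancel ?_ fin4
    rw [← e5, e6, e7]
  -- Step 4
  have e8 : lam S (Rc ⊔ Rz) ⊤ = lam S (Rc ⊔ Rz) (Y ⊔ Rz) + lam S (Y ⊔ Rz) ⊤ :=
    lam_add h1 S _ _ _ (sup_le_sup_right hRcY _) le_top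
  have e9 : lam S (zY ⊔ Rc) Y = lam S (Rc ⊔ Rz) (Y ⊔ Rz) := by
    refine lam_eq ht S (RingEquiv.refl R) hid hid' (AddMonoidHom.id R) (fun r x => rfl) _ _ _ _
      (fun x hx => ?_) (fun x hx => ?_) (fun y hy => ?_)
    · exact (le_sup_left : Y ≤ Y ⊔ Rz) hx
    · rw [AddMonoidHom.id_apply]
      constructor
      · intro h
        obtain ⟨a, ha, b, hb, rfl⟩ := Submodule.mem_sup.1 h
        obtain ⟨y, rfl⟩ := Rz_z b hb
        have hzy : z * y ∈ Y := by
          have := Y.sub_mem hx (hRcY ha)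
          rwa [add_sub_cancel_left] at this
        have hy : y ∈ Y := by
          apply hYs
          rw [pow_succ, mul_assoc]
          exact hzy
        rw [add_comm]
        exact Submodule.mem_sup.2 ⟨z * y, ⟨y, hy, rfl⟩, a, ha, rfl⟩
      · intro h
        obtain ⟨a, ⟨y, hy, rfl⟩, b, hb, rfl⟩ := Submodule.mem_sup.1 h
        rw [add_comm]
        exact Submodule.mem_sup.2 ⟨b, hb, z * y, zRz y, rfl⟩
    · obtain ⟨a, ha, b, hb, rfl⟩ := Submodule.mem_sup.1 hy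
      refine ⟨a, ha, ?_⟩
      rw [AddMonoidHom.id_apply, add_sub_cancel_left]
      exact (le_sup_right : Rz ≤ Rc ⊔ Rz) hb
  have E4 : lam S (Y ⊔ Rz) ⊤ = 0 := by
    have : lam S Rc Y₁ + lam S (Y ⊔ Rz) ⊤ = 0 + lam S Rc Y₁ := by
      rw [zero_add, ← E3, e9, ← e8, E1, ← E2, ← e9, E3]
    exact ncancel this fin5
  -- Step 5
  obtain ⟨d, hd, hdm⟩ := lam_zero hz S _ E4 P hPS
  have hYP' : Y ≤ P' := by
    intro x hx
    refine pow_mul_mem_prime z σ hσ P' hP' hzP' T x ?_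
    obtain ⟨a, ha⟩ := (mRc _).1 ((mem_Yi z σ hσ Rc T x).1 hx)
    rw [← ha]
    exact P'.mul_mem_left _ hcP'
  have hdP : d ∈ P := by
    obtain ⟨a, ha, b, hb, rfl⟩ := Submodule.mem_sup.1 hdm
    refine P.add_mem (hlt.le (hYP' ha)) ?_
    obtain ⟨s, rfl⟩ := (mRz _).1 hb
    exact P.mul_mem_left _ hzP
  have h1P : (1 : R) ∈ P := hd.1 1 (by rw [mul_one]; exact hdP)
  exact hP.2.1 ((Ideal.eq_top_iff_one _).2 h1P)

end main

end JobL3

open JobL3 in
theorem taskL3 (h0 : TaskL0) (h1 : TaskL1) (hz : TaskLz) (ht : TaskLt) (h2 : TaskL2) : TaskL3 := by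
  intro R _ _ Q P' P hQ hP' hP hQP' hP'P z hzP hzP' hn
  have := hQ.1
  let π : R →+* R ⧸ Q := Ideal.Quotient.mk Q
  have hπs : Function.Surjective π := Ideal.Quotient.mk_surjective
  have hπ0 : ∀ x, π x = 0 ↔ x ∈ Q := fun x => Ideal.Quotient.eq_zero_iff_mem
  have : IsNoetherianRing (R ⧸ Q) := isNoetherianRing_of_surjective R (R ⧸ Q) π hπs
  have hmem : ∀ (I : Ideal R), Q ≤ I → ∀ x, π x ∈ Ideal.map π I ↔ x ∈ I := by
    intro I hI x
    rw [Ideal.mem_map_iff_of_surjective π hπs]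
    constructor
    · rintro ⟨y, hy, hyx⟩
      have : y - x ∈ Q := by rw [← hπ0, map_sub, hyx, sub_self]
      have h4 := I.sub_mem hy (hI this)
      rwa [sub_sub_cancel] at h4
    · intro hx
      exact ⟨x, hx, rfl⟩
  have hpr : ∀ (I : Ideal R), Q ≤ I → PrimeI I → PrimeI (Ideal.map π I) := by
    intro I hI hpI
    have := hpI.1
    refine ⟨⟨fun {a} b ha => ?_⟩, ?_, ?_⟩
    · obtain ⟨a, rfl⟩ := hπs a
      obtain ⟨b, rfl⟩ := hπs b
      rw [hmem I hI] at ha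
      rw [← map_mul, hmem I hI]
      exact I.mul_mem_right _ ha
    · intro h
      apply hpI.2.1
      rw [Ideal.eq_top_iff_one] at h ⊢
      rwa [← map_one π, hmem I hI] at h
    · intro a b hab
      obtain ⟨a, rfl⟩ := hπs a
      obtain ⟨b, rfl⟩ := hπs b
      rw [hmem I hI, hmem I hI]
      refine hpI.2.2 a b (fun r => ?_)
      have := hab (π r)
      rwa [← map_mul, ← map_mul, hmem I hI] at this
  have hQP : Q ≤ P := (hQP'.trans hP'P).le
  have hbot : PrimeI (⊥ : Ideal (R ⧸ Q)) := by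
    refine ⟨inferInstance, ?_, ?_⟩
    · intro h
      apply hQ.2.1
      rw [Ideal.eq_top_iff_one] at h ⊢
      rw [Submodule.mem_bot, ← map_one π, hπ0] at h
      exact h
    · intro a b hab
      obtain ⟨a, rfl⟩ := hπs a
      obtain ⟨b, rfl⟩ := hπs b
      rw [Submodule.mem_bot, Submodule.mem_bot, hπ0, hπ0]
      refine hQ.2.2 a b (fun r => ?_)
      have := hab (π r)
      rwa [Submodule.mem_bot, ← map_mul, ← map_mul, hπ0] at this
  obtain ⟨P'', hpr'', hz'', hlt''⟩ := prime_case (R := R ⧸ Q) h0 h1 hz ht h2 hbot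
    (Ideal.map π P') (Ideal.map π P) (hpr P' hQP'.le hP') (hpr P hQP hP) (by
      intro h
      obtain ⟨x, hx, hxQ⟩ := SetLike.exists_of_lt hQP'
      have h5 : π x ∈ Ideal.map π P' := (hmem P' hQP'.le x).2 hx
      rw [h, Submodule.mem_bot, hπ0] at h5
      exact hxQ h5) (by
      obtain ⟨x, hx, hxP'⟩ := SetLike.exists_of_lt hP'P
      refine lt_of_le_of_ne (Ideal.map_mono hP'P.le) (fun h => ?_)
      have h5 : π x ∈ Ideal.map π P := (hmem P hQP x).2 hx
      rw [← h, hmem P' hQP'.le] at h5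
      exact hxP' h5) (π z) ((hmem P hQP z).2 hzP) (fun h => hzP' ((hmem P' hQP'.le z).1 h))
    (by
      intro r
      obtain ⟨r, rfl⟩ := hπs r
      obtain ⟨s, hs⟩ := hn.1 r
      exact ⟨π s, by rw [← sub_eq_zero, ← map_mul, ← map_mul, ← map_sub, hπ0]; exact hs⟩)
    (by
      intro r
      obtain ⟨r, rfl⟩ := hπs r
      obtain ⟨s, hs⟩ := hn.2 r
      exact ⟨π s, by rw [← sub_eq_zero, ← map_mul, ← map_mul, ← map_sub, hπ0]; exact hs⟩)
  have hprc : PrimeI (Ideal.comap π P'') := by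
    have := hpr''.1
    refine ⟨⟨fun {a} b ha => ?_⟩, ?_, ?_⟩
    · rw [Ideal.mem_comap, map_mul]
      exact P''.mul_mem_right _ ha
    · intro h
      apply hpr''.2.1
      rw [Ideal.eq_top_iff_one] at h ⊢
      rwa [Ideal.mem_comap, map_one] at h
    · intro a b hab
      refine hpr''.2.2 (π a) (π b) (fun r => ?_)
      obtain ⟨r, rfl⟩ := hπs r
      have := hab r
      rwa [Ideal.mem_comap, map_mul, map_mul] at this
  have hQle : Q ≤ Ideal.comap π P'' := by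
    intro x hx
    rw [Ideal.mem_comap, (hπ0 x).2 hx]
    exact P''.zero_mem
  refine ⟨Ideal.comap π P'', hprc, hz'', ?_, ?_⟩
  · refine lt_of_le_of_ne hQle (fun h => ?_)
    have : z ∈ Q := by rw [h]; exact hz''
    exact hzP' (hQP'.le this)
  · obtain ⟨y, hy, hyP''⟩ := SetLike.exists_of_lt hlt''
    refine lt_of_le_of_ne (fun x hx => (hmem P hQP x).1 (hlt''.le hx)) (fun h => ?_)
    obtain ⟨x, rfl⟩ := hπs y
    have h5 : x ∈ P := (hmem P hQP x).1 hy
    rw [← h] at h5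
    exact hyP'' h5

end Pool.Agent.Helper377_NH
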