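import Pool.Agent.Helper377_NH.Defs

/-!
JOB NH-4 (MP_112773_al, helper377).  Prime ideals of finite height (TaskL4), given TaskL3.

PLAIN PROOF.
(1) Lemma: for all `n` and all prime ideals `Q` with `Ch M (n + 1) Q` and all `z ∈ M`, `z ∉ Q`, `NormalM Q z` there is a prime ideal `P'` with `Q < P'`, `z ∈ P'`, `Ch M n P'`.
Induction on `n`.  `Ch M (n+1) Q` gives `P₁ > Q` with `Ch M n P₁` (so `P₁` is prime, `P₁ ≤ M`).  If `z ∈ P₁` take `P' = P₁`.  Otherwise `P₁ ≠ M`, so `n = n' + 1` (for `n = 0` `Ch M 0 P₁` says `P₁ = M`), `z` is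
normal modulo `P₁` (as `Q ≤ P₁`), and the induction hypothesis for `n'`, `P₁` gives a prime `P₂' > P₁` with `z ∈ P₂'`, `Ch M n' P₂'`.  TaskL3 for `Q < P₁ < P₂'` and `z` gives a prime `P''`, `z ∈ P''`, `Q < P'' < P₂'`;
then `Ch M (n'+1) P''`.
(2) Claim: for every two-sided ideal `I` there is `d` such that `Ch M n P`, `I ≤ P` imply `n ≤ d`.  (Use `I = ⊥` at the end.)  Induction on `I` by the ascending chain condition (`WellFoundedGT (Ideal R)`).
 - If `I = ⊤` there is nothing to show (prime ideals are `≠ ⊤`).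
 - If `I ≠ ⊤` is not a prime ideal there are `a, b ∉ I` with `a r b ∈ I` for all `r`.  The ideals `I₁ := I ⊔ RaR`, `I₂ := I ⊔ RbR` (two-sided, `Ideal.span` of all `a * r` for the first, or
   `Ideal.map`/`TwoSidedIdeal`, or define the two-sided ideal generated by hand) are larger, with bounds `d₁`, `d₂`; a prime `P ≥ I` contains `a` or `b`, so `P ≥ I₁` or `P ≥ I₂`.  Take the maximum.
 - If `I = Q` is prime and not `Q < M`: a chain `Ch M n P` with `Q ≤ P ≤ M` has `Q ≤ M`, so `Q = M = P`, `n = 0`.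
 - If `I = Q` is prime and `Q < M` take `z` from the hypothesis, `I₁ := Q ⊔ RzR` with bound `d₁`.  Let `Ch M n P`, `Q ≤ P`.  If `P ≠ Q` then `Ch M (n+1) Q`; in any case, `Ch M m Q` with `m ≥ n`.  If `m = m' + 1` then (1) gives
   `P'` prime with `Q < P'`, `z ∈ P'`, `Ch M m' P'`, so `m' ≤ d₁`, `n ≤ d₁ + 1`.
-/

set_option autoImplicit false

namespace Pool.Agent.Helper377_NH

open Pool.Agent.Helper202_BG Pool.Agent.Helper377_NS Pool.Agent.Helper377_AG

namespace NH4

variable {R : Type} [Ring R]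

theorem ch_prime {M : Ideal R} {n : ℕ} {P : Ideal R} (h : Ch M n P) : PrimeI P := by
  cases n with
  | zero => exact h.1
  | succ n => exact h.1

theorem ch_le {M : Ideal R} {n : ℕ} {P : Ideal R} (h : Ch M n P) : P ≤ M := by
  induction n generalizing P with
  | zero => exact h.2.le
  | succ n ih =>
    obtain ⟨_, P', h1, h2⟩ := h
    exact h1.le.trans (ih h2)

theorem normal_mono {Q P : Ideal R} (h : Q ≤ P) {z : R} (hz : NormalM Q z) : NormalM P z := by
  refine ⟨fun r => ?_, fun r => ?_⟩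
  · obtain ⟨s, hs⟩ := hz.1 r
    exact ⟨s, h hs⟩
  · obtain ⟨s, hs⟩ := hz.2 r
    exact ⟨s, h hs⟩

theorem lemA (h3 : TaskL3) [IsNoetherianRing R] (M : Ideal R) (z : R) (hzM : z ∈ M) :
    ∀ (n : ℕ) (Q : Ideal R), Ch M (n + 1) Q → z ∉ Q → NormalM Q z →
      ∃ P' : Ideal R, Q < P' ∧ z ∈ P' ∧ Ch M n P' := by
  intro n
  induction n with
  | zero =>
    intro Q hQ hzQ hn
    obtain ⟨_, P₁, h1, h2⟩ := hQ
    refine ⟨P₁, h1, ?_, h2⟩
    rw [h2.2]
    exact hzM
  | succ n ih =>
    intro Q hQ hzQ hn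
    obtain ⟨hQp, P₁, h1, h2⟩ := hQ
    by_cases hz : z ∈ P₁
    · exact ⟨P₁, h1, hz, h2⟩
    · obtain ⟨P₂, g1, g2, g3⟩ := ih P₁ h2 hz (normal_mono h1.le hn)
      obtain ⟨P'', k1, k2, k3, k4⟩ := h3 R Q P₁ P₂ hQp (ch_prime h2) (ch_prime g3) h1 g1 z g2 hz hn
      exact ⟨P'', k3, k2, k1, P₂, k4, g3⟩

/-- the two-sided ideal generated by `I` and `a` -/
def gen (I : Ideal R) (a : R) : Ideal R := sInf {K : Ideal R | K.IsTwoSided ∧ I ≤ K ∧ a ∈ K}

theorem gen_ts (I : Ideal R) (a : R) : (gen I a).IsTwoSided := by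
  refine ⟨fun {x} b hx => ?_⟩
  unfold gen at hx ⊢
  rw [Submodule.mem_sInf] at hx ⊢
  intro K hK
  obtain ⟨h1, h2, h3⟩ := hK
  exact h1.mul_mem_of_left b (hx K ⟨h1, h2, h3⟩)

theorem le_gen (I : Ideal R) (a : R) : I ≤ gen I a := le_sInf fun _ hK => hK.2.1

theorem mem_gen (I : Ideal R) (a : R) : a ∈ gen I a := by
  unfold gen
  rw [Submodule.mem_sInf]
  intro K hK
  exact hK.2.2

theorem gen_le {I P : Ideal R} {a : R} (h1 : P.IsTwoSided) (h2 : I ≤ P) (h3 : a ∈ P) :
    gen I a ≤ P := sInf_le ⟨h1, h2, h3⟩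

theorem lt_gen {I : Ideal R} {a : R} (h : a ∉ I) : I < gen I a :=
  lt_of_le_of_ne (le_gen I a) fun he => h (by rw [he]; exact mem_gen I a)

end NH4

open NH4

theorem taskL4 (h3 : TaskL3) : TaskL4 := by
  intro R _ _ M hM hz
  have key : ∀ I : Ideal R, I.IsTwoSided →
      ∃ d : ℕ, ∀ (n : ℕ) (P : Ideal R), Ch M n P → I ≤ P → n ≤ d := by
    intro I
    induction I using WellFoundedGT.induction with
    | ind I ih =>
      intro hts
      by_cases htop : I = ⊤
      · refine ⟨0, fun n P hP hIP => ?_⟩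
        exfalso
        rw [htop] at hIP
        exact (ch_prime hP).2.1 (top_le_iff.1 hIP)
      · by_cases hpr : PrimeI I
        · by_cases hlt : I < M
          · obtain ⟨z, z1, z2, z3⟩ := hz I hpr hlt
            obtain ⟨d, hd⟩ := ih (gen I z) (lt_gen z2) (gen_ts I z)
            refine ⟨d + 1, fun n P hP hIP => ?_⟩
            by_cases hPI : P = I
            · rcases n with _ | n
              · omega
              · rw [hPI] at hP
                obtain ⟨P', k1, k2, k3⟩ := lemA h3 M z z1 n I hP z2 z3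
                have := hd n P' k3 (gen_le (ch_prime k3).1 k1.le k2)
                omega
            · have h4 : Ch M (n + 1) I := ⟨hpr, P, lt_of_le_of_ne hIP (Ne.symm hPI), hP⟩
              obtain ⟨P', k1, k2, k3⟩ := lemA h3 M z z1 n I h4 z2 z3
              have := hd n P' k3 (gen_le (ch_prime k3).1 k1.le k2)
              omega
          · refine ⟨0, fun n P hP hIP => ?_⟩
            rcases n with _ | n
            · exact le_rfl
            · exfalso
              obtain ⟨_, P', k1, k2⟩ := hP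
              exact hlt (lt_of_le_of_lt hIP (lt_of_lt_of_le k1 (ch_le k2)))
        · have h4 : ∃ a b : R, (∀ r, a * r * b ∈ I) ∧ a ∉ I ∧ b ∉ I := by
            by_contra hc
            apply hpr
            refine ⟨hts, htop, fun a b hab => ?_⟩
            by_contra h5
            rw [not_or] at h5
            exact hc ⟨a, b, hab, h5.1, h5.2⟩
          obtain ⟨a, b, hab, ha, hb⟩ := h4
          obtain ⟨d1, hd1⟩ := ih (gen I a) (lt_gen ha) (gen_ts I a)
          obtain ⟨d2, hd2⟩ := ih (gen I b) (lt_gen hb) (gen_ts I b)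
          refine ⟨max d1 d2, fun n P hP hIP => ?_⟩
          have hPp := ch_prime hP
          rcases hPp.2.2 a b (fun r => hIP (hab r)) with h5 | h5
          · exact (hd1 n P hP (gen_le hPp.1 hIP h5)).trans (le_max_left _ _)
          · exact (hd2 n P hP (gen_le hPp.1 hIP h5)).trans (le_max_right _ _)
  obtain ⟨d, hd⟩ := key ⊥ inferInstance
  exact ⟨d, fun n P hP => hd n P hP bot_le⟩

end Pool.Agent.Helper377_NH
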