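import Pool.Agent.Helper377_NH.Defs
import Pool.Agent.Helper377_AG.D

/-!
JOB NH-5: comparison of chains of prime ideals (TaskL5), given TaskL0, TaskLm, TaskL5a.
-/

set_option autoImplicit false

namespace Pool.Agent.Helper377_NH

open Pool.Agent.Helper202_BG Pool.Agent.Helper377_NS Pool.Agent.Helper377_AG

namespace NH5

section gen
variable {k H : Type} [Field k] [Ring H] [HopfAlgebra k H]
variable (V : Type) [AddCommGroup V] [Module H V] [Module k V] [IsScalarTower k H V]
variable {N : Type} [AddCommGroup N] [Module H N] [Module k N] [IsScalarTower k H N]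
variable {N' : Type} [AddCommGroup N'] [Module H N'] [Module k N'] [IsScalarTower k H N']

theorem map_surj (g : N →ₗ[H] N') (hg : Function.Surjective g) :
    Function.Surjective (HM.map k V g) := by
  intro f
  obtain ⟨s, hs⟩ := LinearMap.exists_rightInverse_of_surjective (g.restrictScalars k)
    (LinearMap.range_eq_top.2 hg)
  refine ⟨(HM.fn k H V N).symm (s ∘ₗ (HM.fn k H V N' f)), ?_⟩
  apply HM.ext (k := k) (A := H) (V := V) (N := N')
  intro v
  exact LinearMap.congr_fun hs (HM.fn k H V N' f v)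

theorem map_inj (g : N →ₗ[H] N') (hg : Function.Injective g) :
    Function.Injective (HM.map k V g) := by
  intro f f' hff
  apply HM.ext (k := k) (A := H) (V := V) (N := N)
  intro v
  apply hg
  rw [← HM.map_apply, ← HM.map_apply, hff]

end gen

section quo
variable (k : Type) {H : Type} [Field k] [Ring H] [HopfAlgebra k H]

/-- right multiplication on the quotient by a two-sided ideal -/
noncomputable def rho (P : Ideal H) (hP : P.IsTwoSided) (c : H) : (H ⧸ P) →ₗ[H] (H ⧸ P) :=
  Submodule.mapQ P P (LinearMap.toSpanSingleton H H c) (by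
    intro x hx
    exact hP.mul_mem_of_left c hx)

theorem rho_mk (P : Ideal H) (hP : P.IsTwoSided) (c x : H) :
    rho P hP c (Submodule.Quotient.mk x) = Submodule.Quotient.mk (x * c) := rfl

/-- the factor map -/
noncomputable def fac (P P₁ : Ideal H) (h : P ≤ P₁) : (H ⧸ P) →ₗ[H] (H ⧸ P₁) :=
  Submodule.mapQ P P₁ LinearMap.id h

theorem fac_mk (P P₁ : Ideal H) (h : P ≤ P₁) (x : H) :
    fac P P₁ h (Submodule.Quotient.mk x) = Submodule.Quotient.mk x := rfl

theorem fac_surj (P P₁ : Ideal H) (h : P ≤ P₁) : Function.Surjective (fac P P₁ h) := by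
  intro y
  obtain ⟨x, rfl⟩ := Submodule.Quotient.mk_surjective _ y
  exact ⟨Submodule.Quotient.mk x, rfl⟩

variable (V : Type) [AddCommGroup V] [Module H V] [Module k V] [IsScalarTower k H V]

theorem fin_N [FiniteDimensional k V] (P : Ideal H) : Module.Finite H (HM k H V (H ⧸ P)) := by
  obtain ⟨e⟩ := HM_free k H V H (1 : H) (by
    have : (fun a : H => a • (1 : H)) = id := by funext a; simp
    rw [this]
    exact Function.bijective_id)
  have h1 : Function.Surjective (HM.map k V (P.mkQ)) := map_surj V _ (Submodule.mkQ_surjective P)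
  have h2 : Module.Finite H (HM k H V H) := Module.Finite.equiv e
  exact Module.Finite.of_surjective (HM.map k V (P.mkQ)) h1

theorem ann_mono (P P₁ : Ideal H) (h : P ≤ P₁) :
    Module.annihilator H (HM k H V (H ⧸ P)) ≤ Module.annihilator H (HM k H V (H ⧸ P₁)) := by
  intro a ha
  rw [Module.mem_annihilator] at ha ⊢
  intro y
  obtain ⟨x, rfl⟩ := map_surj (k := k) V (fac P P₁ h) (fac_surj P P₁ h) y
  rw [← map_smul, ha, map_zero]

theorem gen_kill [FiniteDimensional k V] (P : Ideal H) (hP : P.IsTwoSided) :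
    ∃ (s : ℕ) (x : Fin s → HM k H V (H ⧸ P)), ∀ a : H, (∀ i, a • x i = 0) →
      ∀ y : HM k H V (H ⧸ P), a • y = 0 := by
  let b := Module.finBasis k V
  let one : H ⧸ P := Submodule.Quotient.mk 1
  let x : Fin (Module.finrank k V) → HM k H V (H ⧸ P) := fun j =>
    (HM.fn k H V (H ⧸ P)).symm (LinearMap.smulRight (b.coord j) one)
  refine ⟨Module.finrank k V, x, ?_⟩
  intro a ha y
  choose r hr using fun j => Submodule.Quotient.mk_surjective P (HM.fn k H V (H ⧸ P) y (b j))
  have hy : y = ∑ j, HM.map k V (rho P hP (r j)) (x j) := by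
    apply HM.ext (k := k) (A := H) (V := V) (N := H ⧸ P)
    intro v
    rw [map_sum, LinearMap.sum_apply]
    conv_lhs => rw [← b.sum_repr v, map_sum]
    apply Finset.sum_congr rfl
    intro j _
    rw [HM.map_apply, map_smul, ← hr j]
    have e1 : HM.fn k H V (H ⧸ P) (x j) v = (b.repr v j) • one := rfl
    rw [e1]
    have e2 : rho P hP (r j) ((b.repr v j) • one) = (b.repr v j) • rho P hP (r j) one :=
      ((rho P hP (r j)).restrictScalars k).map_smul _ _
    rw [e2]
    have e3 : rho P hP (r j) one = Submodule.Quotient.mk (r j) := by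
      change rho P hP (r j) (Submodule.Quotient.mk 1) = _
      rw [rho_mk, one_mul]
    rw [e3]
  rw [hy, Finset.smul_sum]
  apply Finset.sum_eq_zero
  intro j _
  rw [← map_smul, ha, map_zero]

end quo

section ident
variable (k : Type) {H : Type} [Field k] [Ring H] [HopfAlgebra k H]
variable (V : Type) [AddCommGroup V] [Module H V] [Module k V] [IsScalarTower k H V]

theorem smul_id (a : H) : a • (HM.fn k H V V).symm LinearMap.id =
    (HM.fn k H V V).symm ((Coalgebra.counit (R := k) a : k) • LinearMap.id) := by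
  apply HM.ext (k := k) (A := H) (V := V) (N := V)
  intro v
  rw [HM.fn_smul, LinearEquiv.apply_symm_apply, LinearEquiv.apply_symm_apply, hop_apply]
  have key : ∀ t : TensorProduct k H H, kap (LinearMap.id : V →ₗ[k] V) v
      (LinearMap.lTensor H (an k H) t) =
        (LinearMap.mul' k H (LinearMap.lTensor H (an k H) t)) • v := by
    intro t
    induction t with
    | zero => simp
    | add x y hx hy => simp only [map_add, hx, hy, add_smul]
    | tmul p q =>
      rw [LinearMap.lTensor_tmul, kap_tmul, LinearMap.mul'_apply, mul_smul]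
      rfl
  rw [key]
  have h2 : LinearMap.mul' k H (LinearMap.lTensor H (an k H) (cop k H a)) =
      algebraMap k H (Coalgebra.counit a) := HopfAlgebra.mul_antipode_lTensor_comul_apply a
  rw [h2, algebraMap_smul]
  rfl

end ident

section main
variable (k : Type) {H : Type} [Field k] [Ring H] [HopfAlgebra k H]

theorem ann_M (M : Ideal H) (hM : M ≠ ⊤) :
    Module.annihilator H (HM k H (H ⧸ M) (H ⧸ M)) ≤ RingHom.ker (eps k H) := by
  intro a ha
  rw [Module.mem_annihilator] at ha
  rw [RingHom.mem_ker]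
  have h1 := ha ((HM.fn k H (H ⧸ M) (H ⧸ M)).symm LinearMap.id)
  rw [smul_id] at h1
  by_contra hne
  have hne' : (Coalgebra.counit (R := k) a : k) ≠ 0 := hne
  have h2 : (Coalgebra.counit (R := k) a : k) • (LinearMap.id : (H ⧸ M) →ₗ[k] (H ⧸ M)) = 0 :=
    (LinearEquiv.map_eq_zero_iff _).1 h1
  have h3 := (smul_eq_zero.1 h2).resolve_left hne'
  apply hM
  rw [Ideal.eq_top_iff_one]
  have h4 := LinearMap.congr_fun h3 (Submodule.Quotient.mk 1)
  exact (Submodule.Quotient.mk_eq_zero M).1 h4

theorem ker_prime : PrimeI (RingHom.ker (eps k H)) := by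
  refine ⟨inferInstance, ?_, ?_⟩
  · intro h
    have h1 : (1 : H) ∈ RingHom.ker (eps k H) := h ▸ Submodule.mem_top
    rw [RingHom.mem_ker, map_one] at h1
    exact one_ne_zero h1
  · intro a b hab
    have h1 := hab 1
    rw [RingHom.mem_ker, mul_one, map_mul] at h1
    exact mul_eq_zero.1 h1

theorem step [IsNoetherianRing H] (h0 : TaskL0) (h5 : TaskL5a)
    (V : Type) [AddCommGroup V] [Module H V] [Module k V] [IsScalarTower k H V]
    [FiniteDimensional k V] (P P₁ : Ideal H) (hP : PrimeI P) (hP₁ : PrimeI P₁) (hlt : P < P₁)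
    (P' : Ideal H) (hmin : MinOver (Module.annihilator H (HM k H V (H ⧸ P))) P') :
    ¬ Module.annihilator H (HM k H V (H ⧸ P₁)) ≤ P' := by
  obtain ⟨c, hc, hreg⟩ := h0 H P P₁ hP hP₁.1 (not_le_of_gt hlt)
  obtain ⟨s, x, hx⟩ := gen_kill k V P₁ hP₁.1
  have hfin := fin_N k V P
  refine h5 H (HM k H V (H ⧸ P)) (HM k H V (H ⧸ P₁)) (HM.map k V (rho P hP.1 c))
    (HM.map k V (fac P P₁ hlt.le)) (map_inj V _ ?_) (map_surj V _ (fac_surj P P₁ hlt.le)) ?_ s x hx
    P' hmin
  · rw [← LinearMap.ker_eq_bot, LinearMap.ker_eq_bot']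
    intro m hm
    obtain ⟨y, rfl⟩ := Submodule.Quotient.mk_surjective _ m
    rw [rho_mk, Submodule.Quotient.mk_eq_zero] at hm
    exact (Submodule.Quotient.mk_eq_zero P).2 (hreg.2 y hm)
  · intro f
    apply HM.ext (k := k) (A := H) (V := V) (N := H ⧸ P₁)
    intro v
    rw [HM.map_apply, HM.map_apply]
    obtain ⟨y, hy⟩ := Submodule.Quotient.mk_surjective _ (HM.fn k H V (H ⧸ P) f v)
    rw [← hy, rho_mk, fac_mk]
    exact (Submodule.Quotient.mk_eq_zero P₁).2 (P₁.mul_mem_left y hc)

theorem chain [IsNoetherianRing H] (h0 : TaskL0) (hm : TaskLm) (h5 : TaskL5a)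
    (M : Ideal H) (hM : PrimeI M) [Module.Finite k (H ⧸ M)] :
    ∀ (n : ℕ) (P : Ideal H), Ch M n P → ∃ P' : Ideal H,
      Module.annihilator H (HM k H (H ⧸ M) (H ⧸ P)) ≤ P' ∧ Ch (RingHom.ker (eps k H)) n P' := by
  intro n
  induction n with
  | zero =>
    rintro P ⟨-, rfl⟩
    exact ⟨RingHom.ker (eps k H), ann_M k P hM.2.1, ker_prime k, rfl⟩
  | succ n ih =>
    rintro P ⟨hP, P₁, hlt, hch⟩
    have hP₁ : PrimeI P₁ := by
      cases n with
      | zero => exact hch.1
      | succ n => exact hch.1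
    obtain ⟨P₁', hle, hch'⟩ := ih P₁ hch
    have hP₁' : PrimeI P₁' := by
      cases n with
      | zero => exact hch'.1
      | succ n => exact hch'.1
    obtain ⟨P', hmin, hle'⟩ := hm H (Module.annihilator H (HM k H (H ⧸ M) (H ⧸ P))) P₁' hP₁'
      ((ann_mono k (H ⧸ M) P P₁ hlt.le).trans hle)
    have hnot := step k h0 h5 (H ⧸ M) P P₁ hP hP₁ hlt P' hmin
    refine ⟨P', hmin.2.1, hmin.1, P₁', lt_of_le_of_ne hle' ?_, hch'⟩
    rintro rfl
    exact hnot hle

end main

end NH5

theorem taskL5 (h0 : TaskL0) (hm : TaskLm) (h5 : TaskL5a) : TaskL5 := by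
  intro k H _ _ _ _ M hM hfin n P hch
  obtain ⟨P', -, h⟩ := NH5.chain k h0 hm h5 M hM n P hch
  exact ⟨P', h⟩

end Pool.Agent.Helper377_NH
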