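import Pool.Agent.Helper377_NH.Defs

/-!
JOB NH-5a (MP_112773_al, helper377).  The annihilator of a module with an injective endomorphism (TaskL5a), given TaskL1, TaskLz, TaskL2.

PLAIN PROOF.  Let `S := {P'}`.  `len S N ≠ ⊤` by TaskL2 (`I` the annihilator of `N`).  `range θ ≃ N`, so by additivity (`SES.ofInj`, the sequence `0 → N → N → N ⧸ range θ → 0`)
`len S N = len S N + len S (N ⧸ range θ)`, hence `len S (N ⧸ range θ) = 0`.  `N₁` is a quotient of `N ⧸ range θ` (`π ∘ θ = 0`), so `len S N₁ = 0` by additivity, and by TaskLz every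
element `y` of `N₁` is killed by some `c` regular modulo `P'`.  More generally finitely many elements `x 0, ..., x (s-1)` are killed by one `c` regular modulo `P'` (induction on `s`: if `c` kills the
first ones and `c'` kills `c • x s` then `c' * c` kills all; `RegM P'` is closed under products and contains `1`).  By hypothesis this `c` kills `N₁`.  If the annihilator of `N₁` were contained in `P'` then
`c * 1 ∈ P'`, so `1 ∈ P'` by regularity, contradiction to `P' ≠ ⊤`.
-/

set_option autoImplicit false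

namespace Pool.Agent.Helper377_NH

open Pool.Agent.Helper202_BG Pool.Agent.Helper377_NS Pool.Agent.Helper377_AG

namespace J5749

theorem regM_mul {R : Type} [Ring R] {Q : Ideal R} {c c' : R} (h : RegM Q c) (h' : RegM Q c') :
    RegM Q (c' * c) := by
  refine ⟨fun x hx => h.1 x (h'.1 _ ?_), fun x hx => h'.2 x (h.2 _ ?_)⟩
  · rwa [← mul_assoc]
  · rwa [mul_assoc]

theorem regM_one {R : Type} [Ring R] (Q : Ideal R) : RegM Q (1 : R) :=
  ⟨fun x hx => by rwa [one_mul] at hx, fun x hx => by rwa [mul_one] at hx⟩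

theorem common {R : Type} [Ring R] {Q : Ideal R} {L : Type} [AddCommGroup L] [Module R L]
    (h : ∀ y : L, ∃ c, RegM Q c ∧ c • y = 0) (s : ℕ) (x : Fin s → L) :
    ∃ c, RegM Q c ∧ ∀ i, c • x i = 0 := by
  induction s with
  | zero => exact ⟨1, regM_one Q, fun i => i.elim0⟩
  | succ s ih =>
    obtain ⟨c, hc, hcx⟩ := ih (fun i => x i.castSucc)
    obtain ⟨c', hc', hcx'⟩ := h (c • x (Fin.last s))
    refine ⟨c' * c, regM_mul hc hc', fun i => ?_⟩
    rw [mul_smul]
    refine Fin.lastCases hcx' (fun j => ?_) i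
    rw [hcx j, smul_zero]

theorem enat_zero {a b : ℕ∞} (ha : a ≠ ⊤) (h : a = a + b) : b = 0 := by
  lift a to ℕ using ha
  induction b using ENat.recTopCoe with
  | top => simp at h
  | coe b =>
    norm_cast at h
    have hb : b = 0 := by omega
    rw [hb]
    rfl

end J5749

theorem taskL5a (h1 : TaskL1) (hz : TaskLz) (h2 : TaskL2) : TaskL5a := by
  intro R _ _ N N₁ _ _ _ _ _ θ π hθ hπ hπθ s x hx P' hP' hle
  have hfin : len {P'} N ≠ ⊤ := h2 R (Module.annihilator R N) {P'}
    (fun Q hQ => by rw [Set.mem_singleton_iff] at hQ; rw [hQ]; exact hP') N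
    (fun a ha x => Module.mem_annihilator.1 ha x)
  have e1 : len {P'} (N ⧸ LinearMap.range θ) = 0 :=
    J5749.enat_zero hfin (h1 R {P'} N N (N ⧸ LinearMap.range θ) θ _ (SES.ofInj hθ))
  have hker : LinearMap.range θ ≤ LinearMap.ker π := by
    rintro y ⟨z, rfl⟩
    exact LinearMap.mem_ker.2 (hπθ z)
  have hsurj : Function.Surjective ((LinearMap.range θ).liftQ π hker) := by
    intro y
    obtain ⟨z, hz⟩ := hπ y
    exact ⟨(LinearMap.range θ).mkQ z, by rw [Submodule.mkQ_apply, Submodule.liftQ_apply, hz]⟩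
  have e2 := h1 R {P'} _ _ _ _ _ (SES.ofSurj hsurj)
  have e3 : len {P'} N₁ = 0 := by
    rw [e1] at e2
    exact (add_eq_zero.1 e2.symm).2
  have hSm := (hz R {P'} N₁).1 e3
  have hall : ∀ y : N₁, ∃ c, RegM P' c ∧ c • y = 0 := by
    intro y
    obtain ⟨c, hc, hcy⟩ := hSm P' rfl y trivial
    exact ⟨c, hc, (Submodule.mem_bot R).1 hcy⟩
  obtain ⟨c, hc, hcx⟩ := J5749.common hall s x
  have hcP : c ∈ P' := hle (Module.mem_annihilator.2 (hx c hcx))
  have h1P : (1 : R) ∈ P' := hc.1 1 (by rwa [mul_one])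
  exact hP'.1.2.1 ((Ideal.eq_top_iff_one P').2 h1P)

end Pool.Agent.Helper377_NH
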